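import Pool.Agent.Work.MP_b0f829_al.H86.Crit

set_option autoImplicit false

namespace Pool.Agent.B0f829.EQ.Central

open Subgroup Pool.Agent.B0f829
open scoped commutatorElement

/-- `PalLen S k g`: the element `g` is a product of at most `k` palindromic words in the letters
`S` and their inverses. -/
def PalLen {G : Type} [Group G] (S : Set G) (k : ℕ) (g : G) : Prop :=
  ∃ ps : List (List G), ps.length ≤ k ∧
    (∀ w ∈ ps, (∀ x ∈ w, x ∈ S ∨ x⁻¹ ∈ S) ∧ w.reverse = w) ∧ (ps.map List.prod).prod = g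

/-- Q1: palindromic width is finite for all solvable groups of derived length at least `4` and all
finite generating sets. -/
def Q1 : Prop :=
  ∀ (G : Type) [Group G], Group.IsSolvable G → derivedSeries G 3 ≠ ⊥ →
    ∀ S : Finset G, closure (S : Set G) = ⊤ → ∃ N : ℕ, ∀ g : G, PalLen (S : Set G) N g

/-- The subgroup `A²[A, G]` generated by the squares of elements of `A` and by `[A, G]`. -/
def SqComm {G : Type} [Group G] (A : Subgroup G) : Subgroup G :=
  closure {y | ∃ a ∈ A, y = a ^ 2} ⊔ ⁅A, (⊤ : Subgroup G)⁆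

theorem palLen_iff {G : Type} [Group G] {S : Set G} {k : ℕ} {g : G} :
    PalLen S k g ↔ PL S k g := Iff.rfl

/-- From bounded palindromic length of the layers of free groups to Q1. -/
theorem q1_of_free
    (h : ∀ n i : ℕ, 3 ≤ i → ∃ M : ℕ, ∀ w ∈ derivedSeries (FreeGroup (Fin n)) i,
      ∃ p, PalLen (Set.range (FreeGroup.of : Fin n → FreeGroup (Fin n))) M p ∧
        p⁻¹ * w ∈ SqComm (derivedSeries (FreeGroup (Fin n)) i)) :
    ∀ (G : Type) [Group G], Group.IsSolvable G →
    ∀ S : Finset G, closure (S : Set G) = ⊤ → ∃ N : ℕ, ∀ g : G, PalLen (S : Set G) N g := by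
  intro G _ hsol S hS
  obtain ⟨e⟩ : Nonempty (Fin S.card ≃ S) := ⟨S.equivFin.symm⟩
  let φ : FreeGroup (Fin S.card) →* G := FreeGroup.lift (fun i => (e i : G))
  have hrange : φ '' (Set.range (FreeGroup.of : Fin S.card → _)) = (S : Set G) := by
    rw [← Set.range_comp]
    ext x
    constructor
    · rintro ⟨i, rfl⟩
      simp [φ]
    · intro hx
      exact ⟨e.symm ⟨x, hx⟩, by simp [φ]⟩
  have hsurj : Function.Surjective φ := by
    rw [← MonoidHom.range_eq_top, eq_top_iff, ← hS, closure_le, ← hrange]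
    rintro _ ⟨y, _, rfl⟩
    exact ⟨y, rfl⟩
  apply finite_of_PLayer hsol S hS
  intro i hi
  obtain ⟨M, hM⟩ := h S.card i hi
  refine ⟨M, fun a ha => ?_⟩
  rw [← map_derivedSeries_eq hsurj] at ha
  obtain ⟨w, hw, rfl⟩ := ha
  obtain ⟨p, hp, hpw⟩ := hM w hw
  refine ⟨φ p, ?_, ?_⟩
  · have := PL.map φ (palLen_iff.1 hp)
    rwa [hrange] at this
  · rw [← map_inv, ← map_mul]
    have h0 : (Nsq (derivedSeries (FreeGroup (Fin S.card)) i)).map φ
        ≤ Nsq (derivedSeries G i) := by
      rw [map_le_iff_le_comap]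
      refine sup_le ?_ ?_
      · rw [closure_le]
        rintro y ⟨a, ha, rfl⟩
        change φ (a ^ 2) ∈ Nsq (derivedSeries G i)
        rw [map_pow]
        exact sq_mem_Nsq (by rw [← map_derivedSeries_eq hsurj]; exact ⟨a, ha, rfl⟩)
      · rw [commutator_le]
        intro a ha g _
        change φ ⁅a, g⁆ ∈ Nsq (derivedSeries G i)
        rw [map_commutatorElement]
        exact comm_mem_Nsq (by rw [← map_derivedSeries_eq hsurj]; exact ⟨a, ha, rfl⟩) _
    exact h0 ⟨_, hpw, rfl⟩

/-- Q1 also gives the groups of derived length at most three. -/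
theorem q1_all (hQ : Q1) : ∀ (G : Type) [Group G], Group.IsSolvable G →
    ∀ S : Finset G, closure (S : Set G) = ⊤ → ∃ N : ℕ, ∀ g : G, PalLen (S : Set G) N g := by
  intro G _ hsol S hS
  by_cases h3 : derivedSeries G 3 = ⊥
  · obtain ⟨M, hM⟩ := base S hS
    refine ⟨M, fun g => ?_⟩
    obtain ⟨p, hp, hpg⟩ := hM g
    rw [h3, mem_bot, inv_mul_eq_one] at hpg
    rwa [← hpg]
  · exact hQ G hsol h3 S hS

/-- Q1 gives bounded palindromic length of the layers of free groups. -/
theorem free_of_q1 (hQ : Q1) : ∀ n i : ℕ, 3 ≤ i → ∃ M : ℕ,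
    ∀ w ∈ derivedSeries (FreeGroup (Fin n)) i,
      ∃ p, PalLen (Set.range (FreeGroup.of : Fin n → FreeGroup (Fin n))) M p ∧
        p⁻¹ * w ∈ SqComm (derivedSeries (FreeGroup (Fin n)) i) := by
  classical
  intro n i hi
  let F := FreeGroup (Fin n)
  let D : Subgroup F := derivedSeries F (i + 1)
  let π : F →* F ⧸ D := QuotientGroup.mk' D
  have hsurj : Function.Surjective π := QuotientGroup.mk'_surjective D
  let S : Finset F := Finset.univ.image (FreeGroup.of : Fin n → F)
  have hSr : (S : Set F) = Set.range (FreeGroup.of : Fin n → F) := by simp [S]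
  have hS' : closure ((S.image π : Finset (F ⧸ D)) : Set (F ⧸ D)) = ⊤ := by
    rw [Finset.coe_image, ← MonoidHom.map_closure, hSr, FreeGroup.closure_range_of,
      ← MonoidHom.range_eq_map, MonoidHom.range_eq_top.2 hsurj]
  have hsol : Group.IsSolvable (F ⧸ D) := by
    refine ⟨⟨i + 1, ?_⟩⟩
    rw [← map_derivedSeries_eq hsurj, eq_bot_iff]
    rintro _ ⟨x, hx, rfl⟩
    exact (QuotientGroup.eq_one_iff x).2 hx
  obtain ⟨N, hN⟩ := q1_all hQ (F ⧸ D) hsol (S.image π) hS'
  refine ⟨N, fun w _ => ?_⟩
  have h1 := hN (π w)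
  rw [palLen_iff, Finset.coe_image, hSr] at h1
  obtain ⟨p, hp, hpw⟩ := PL.lift π h1
  refine ⟨p, hp, ?_⟩
  have h2 : p⁻¹ * w ∈ D := QuotientGroup.eq.1 hpw
  have h3 : D ≤ SqComm (derivedSeries F i) := by
    refine le_trans ?_ le_sup_right
    rw [show D = ⁅derivedSeries F i, derivedSeries F i⁆ from derivedSeries_succ F i]
    exact commutator_mono le_rfl le_top
  exact h3 h2

/-- Q1 holds if and only if for every free group `F` of finite rank and every `i ≥ 3` the elements
of `A = F^(i)` have bounded palindromic length modulo `A²[A, F]`; and it is enough to know this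
for those `F` and `A` for which the palindromic length is bounded modulo `A` and the commutator
length of the elements of `A` is unbounded modulo `A²[A, F]`. -/
theorem central :
    Q1 ↔ ∀ n i : ℕ, 3 ≤ i →
      -- palindromic length is bounded modulo `A`
      (∃ M : ℕ, ∀ w : FreeGroup (Fin n), ∃ p,
        PalLen (Set.range (FreeGroup.of : Fin n → FreeGroup (Fin n))) M p ∧
          p⁻¹ * w ∈ derivedSeries (FreeGroup (Fin n)) i) →
      -- commutator length is unbounded on `A` modulo `A²[A, F]`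
      (∀ k : ℕ, ∃ a ∈ derivedSeries (FreeGroup (Fin n)) i,
        ¬ ∃ l : List (FreeGroup (Fin n) × FreeGroup (Fin n)), l.length ≤ k ∧
          ((l.map (fun q => ⁅q.1, q.2⁆)).prod)⁻¹ * a ∈
            SqComm (derivedSeries (FreeGroup (Fin n)) i)) →
      -- then palindromic length is bounded on `A` modulo `A²[A, F]`
      ∃ M : ℕ, ∀ w ∈ derivedSeries (FreeGroup (Fin n)) i,
        ∃ p, PalLen (Set.range (FreeGroup.of : Fin n → FreeGroup (Fin n))) M p ∧
          p⁻¹ * w ∈ SqComm (derivedSeries (FreeGroup (Fin n)) i) := by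
  classical
  constructor
  · intro hQ n i hi _ _
    exact free_of_q1 hQ n i hi
  · intro h G _ hsol _ S hS
    refine q1_of_free ?_ G hsol S hS
    intro n
    let F := FreeGroup (Fin n)
    let S : Finset F := Finset.univ.image (FreeGroup.of : Fin n → F)
    have hSr : (S : Set F) = Set.range (FreeGroup.of : Fin n → F) := by simp [S]
    have hcl : closure (S : Set F) = ⊤ := by rw [hSr, FreeGroup.closure_range_of]
    have key : ∀ j : ℕ, ∃ M : ℕ, ∀ w : F, ∃ p, PL (S : Set F) M p ∧
        p⁻¹ * w ∈ derivedSeries F (j + 3) := by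
      intro j
      induction j with
      | zero => exact base S hcl
      | succ j ih =>
        obtain ⟨M, hM⟩ := ih
        by_cases hc : ∃ k, LayerCond F (j + 3) k
        · obtain ⟨k, hk⟩ := hc
          exact ⟨_, step S hcl (i := j + 2) hM (PLayer.of_layerCond S hcl hM hk)⟩
        · have hc' : ∀ k : ℕ, ∃ a ∈ derivedSeries F (j + 3),
              ¬ ∃ l : List (F × F), l.length ≤ k ∧
              ((l.map (fun q => ⁅q.1, q.2⁆)).prod)⁻¹ * a ∈ SqComm (derivedSeries F (j + 3)) := by
            intro k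
            by_contra hcon
            apply hc
            refine ⟨k, fun a ha => ?_⟩
            by_contra hcon2
            exact hcon ⟨a, ha, hcon2⟩
          obtain ⟨k, hk⟩ := h n (j + 3) (by omega) ⟨M, by rw [← hSr]; exact hM⟩ hc'
          rw [← hSr] at hk
          exact ⟨_, step S hcl (i := j + 2) hM (k := k) hk⟩
    intro i hi
    obtain ⟨j, rfl⟩ : ∃ j, i = j + 3 := ⟨i - 3, by omega⟩
    obtain ⟨M, hM⟩ := key (j + 1)
    refine ⟨M, fun w _ => ?_⟩
    obtain ⟨p, hp, hpw⟩ := hM w
    rw [← hSr]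
    refine ⟨p, hp, ?_⟩
    have h3 : derivedSeries F (j + 1 + 3) ≤ SqComm (derivedSeries F (j + 3)) := by
      refine le_trans ?_ le_sup_right
      rw [show j + 1 + 3 = (j + 3) + 1 by ring, derivedSeries_succ]
      exact commutator_mono le_rfl le_top
    exact h3 hpw

end Pool.Agent.B0f829.EQ.Central
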