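import Pool.Agent.Work.MP_b0f829_al.EQ.Wr
import Pool.Agent.Work.MP_b0f829_al.H86.Crit

/-!
# MODULE Free (S-M): commutator width of solvable groups and layers of free groups

PROOF. `free_of_cw`: `F ⧸ D`, `D = derivedSeries F (i+1)`, is finitely generated and solvable (see `free_of_q1` in `Results/MP_b0f829_al/CentralReduction.lean`); for `a ∈ derivedSeries F i ≤ commutator F` the image of
`a` lies in the commutator subgroup, is a product of `≤ N` commutators, which lift; so `c⁻¹ * a ∈ D ≤ ⁅A, ⊤⁆ ≤ Nsq A`.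
`pw_of_free`: as `q1_of_free` there: `φ : FreeGroup (Fin S.card) →* G` onto, `derivedSeries G i = map φ (derivedSeries F i)`, push the list of commutators forward, and use `finite_of_layerCond`
(`LayerCond` in `H86/Layers.lean`; `Nsq` in `H86`). `cw_pw`: `finite_of_layerCond` with `layerCond_of_commWidth`.
-/

set_option autoImplicit false

open Subgroup
open scoped commutatorElement

namespace Pool.Agent.B0f829.EQ

private theorem prod_map {G H : Type} [Group G] [Group H] (φ : G →* H) (l : List (G × G)) :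
    φ ((l.map (fun q => ⁅q.1, q.2⁆)).prod) =
      ((l.map (fun q => (φ q.1, φ q.2))).map (fun q => ⁅q.1, q.2⁆)).prod := by
  rw [map_list_prod, List.map_map, List.map_map]
  congr 1
  refine List.map_congr_left fun q _ => ?_
  show φ ⁅q.1, q.2⁆ = ⁅φ q.1, φ q.2⁆
  exact map_commutatorElement φ q.1 q.2

theorem free_of_cw (h : ∀ (G : Type) [Group G], Group.IsSolvable G → ∀ S : Finset G, closure (S : Set G) = ⊤ →
      ∃ N : ℕ, ∀ c ∈ commutator G, CommLen N c) (n i : ℕ) (hi : 3 ≤ i) :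
    ∃ k : ℕ, ∀ a ∈ derivedSeries (FreeGroup (Fin n)) i, ∃ c, CommLen k c ∧
      c⁻¹ * a ∈ Nsq (derivedSeries (FreeGroup (Fin n)) i) := by
  classical
  let F := FreeGroup (Fin n)
  let D : Subgroup F := derivedSeries F (i + 1)
  let π : F →* F ⧸ D := QuotientGroup.mk' D
  have hsurj : Function.Surjective π := QuotientGroup.mk'_surjective D
  let S : Finset F := Finset.univ.image (FreeGroup.of : Fin n → F)
  have hSr : (S : Set F) = Set.range (FreeGroup.of : Fin n → F) := by simp [S]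
  have hS' : closure ((S.image π : Finset (F ⧸ D)) : Set (F ⧸ D)) = ⊤ := by
    rw [Finset.coe_image, ← MonoidHom.map_closure, hSr, FreeGroup.closure_range_of,
      ← MonoidHom.range_eq_map, MonoidHom.range_eq_top.2 hsurj]
  have hsol : Group.IsSolvable (F ⧸ D) := by
    refine ⟨⟨i + 1, ?_⟩⟩
    rw [← map_derivedSeries_eq hsurj, eq_bot_iff]
    rintro _ ⟨x, hx, rfl⟩
    exact (QuotientGroup.eq_one_iff x).2 hx
  obtain ⟨N, hN⟩ := h (F ⧸ D) hsol (S.image π) hS'
  refine ⟨N, fun a ha => ?_⟩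
  have h1 : π a ∈ commutator (F ⧸ D) := by
    rw [← derivedSeries_one, ← map_derivedSeries_eq hsurj]
    exact ⟨a, derivedSeries_antitone F (by omega : 1 ≤ i) ha, rfl⟩
  obtain ⟨l, hl, hla⟩ := hN (π a) h1
  obtain ⟨l', hl'⟩ : ∃ l' : List (F × F), l'.map (fun q => (π q.1, π q.2)) = l := by
    refine ⟨l.map (fun q => (Function.surjInv hsurj q.1, Function.surjInv hsurj q.2)), ?_⟩
    rw [List.map_map]
    have : ((fun q : F × F => (π q.1, π q.2)) ∘ fun q : (F ⧸ D) × (F ⧸ D) =>
        (Function.surjInv hsurj q.1, Function.surjInv hsurj q.2)) = id := by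
      funext q
      show (π (Function.surjInv hsurj q.1), π (Function.surjInv hsurj q.2)) = q
      rw [Function.surjInv_eq hsurj, Function.surjInv_eq hsurj]
    rw [this, List.map_id]
  refine ⟨(l'.map (fun q => ⁅q.1, q.2⁆)).prod, ⟨l', ?_, rfl⟩, ?_⟩
  · rw [← hl', List.length_map] at hl
    exact hl
  · have h2 : π ((l'.map (fun q => ⁅q.1, q.2⁆)).prod) = π a := by
      rw [prod_map, hl', hla]
    have h3 : ((l'.map (fun q => ⁅q.1, q.2⁆)).prod)⁻¹ * a ∈ D := QuotientGroup.eq.1 h2
    have h4 : D ≤ Nsq (derivedSeries F i) := by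
      refine le_trans ?_ le_sup_right
      rw [show D = ⁅derivedSeries F i, derivedSeries F i⁆ from derivedSeries_succ F i]
      exact commutator_mono le_rfl le_top
    exact h4 h3

theorem pw_of_free (h : ∀ n i : ℕ, 3 ≤ i → ∃ k : ℕ, ∀ a ∈ derivedSeries (FreeGroup (Fin n)) i, ∃ c, CommLen k c ∧
      c⁻¹ * a ∈ Nsq (derivedSeries (FreeGroup (Fin n)) i))
    (G : Type) [Group G] (hsol : Group.IsSolvable G) (S : Finset G) (hS : closure (S : Set G) = ⊤) :
    ∃ N : ℕ, ∀ g : G, PL (S : Set G) N g := by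
  obtain ⟨e⟩ : Nonempty (Fin S.card ≃ S) := ⟨S.equivFin.symm⟩
  let φ : FreeGroup (Fin S.card) →* G := FreeGroup.lift (fun i => (e i : G))
  have hrange : φ '' (Set.range (FreeGroup.of : Fin S.card → _)) = (S : Set G) := by
    rw [← Set.range_comp]
    ext x
    constructor
    · rintro ⟨i, rfl⟩
      simp [φ]
    · intro hx
      exact ⟨e.symm ⟨x, hx⟩, by simp [φ]⟩
  have hsurj : Function.Surjective φ := by
    rw [← MonoidHom.range_eq_top, eq_top_iff, ← hS, closure_le, ← hrange]
    rintro _ ⟨y, _, rfl⟩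
    exact ⟨y, rfl⟩
  apply finite_of_layerCond hsol S hS
  intro i hi
  obtain ⟨k, hk⟩ := h S.card i hi
  refine ⟨k, fun a ha => ?_⟩
  rw [← map_derivedSeries_eq hsurj] at ha
  obtain ⟨w, hw, rfl⟩ := ha
  obtain ⟨c, ⟨l, hl, rfl⟩, hcw⟩ := hk w hw
  refine ⟨l.map (fun q => (φ q.1, φ q.2)), by rwa [List.length_map], ?_⟩
  rw [← prod_map, ← map_inv, ← map_mul]
  have h0 : (Nsq (derivedSeries (FreeGroup (Fin S.card)) i)).map φ
      ≤ Nsq (derivedSeries G i) := by
    rw [map_le_iff_le_comap]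
    refine sup_le ?_ ?_
    · rw [closure_le]
      rintro y ⟨a, ha, rfl⟩
      change φ (a ^ 2) ∈ Nsq (derivedSeries G i)
      rw [map_pow]
      exact sq_mem_Nsq (by rw [← map_derivedSeries_eq hsurj]; exact ⟨a, ha, rfl⟩)
    · rw [commutator_le]
      intro a ha g _
      change φ ⁅a, g⁆ ∈ Nsq (derivedSeries G i)
      rw [map_commutatorElement]
      exact comm_mem_Nsq (by rw [← map_derivedSeries_eq hsurj]; exact ⟨a, ha, rfl⟩) _
  exact h0 ⟨_, hcw, rfl⟩

theorem cw_pw (G : Type) [Group G] (hsol : Group.IsSolvable G) (k : ℕ) (h : ∀ c ∈ commutator G, CommLen k c)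
    (S : Finset G) (hS : closure (S : Set G) = ⊤) : ∃ N : ℕ, ∀ g : G, PL (S : Set G) N g :=
  finite_of_layerCond hsol S hS fun i hi => ⟨k, layerCond_of_commWidth h i (by omega)⟩

end Pool.Agent.B0f829.EQ
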