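import Pool.Agent.Work.MP_b0f829_al.H86.Pal

/-!
# Reduction to generating sets inverted by an automorphism

For a group `G` generated by `S` let `π : F → G` be the canonical homomorphism from the free group on
`S` and `θ` the automorphism of `F` inverting the basis. The subgroup `L = π (θ (ker π))` is normal,
every element of `L` is the value of a palindromic word, and on `G ⧸ L` there is an automorphism
inverting the images of the elements of `S`.
-/

set_option autoImplicit false

open Subgroup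

namespace Pool.Agent.B0f829.EQ

section
variable {G : Type} [Group G] (S : Set G)

/-- The canonical homomorphism from the free group on `S`. -/
def piS : FreeGroup S →* G := FreeGroup.lift Subtype.val

/-- The endomorphism inverting the basis. -/
def thS : FreeGroup S →* FreeGroup S := FreeGroup.lift fun x => (FreeGroup.of x)⁻¹

omit [Group G] in
theorem thS_thS (w : FreeGroup S) : thS S (thS S w) = w := by
  have h : (thS S).comp (thS S) = MonoidHom.id _ := by
    apply FreeGroup.ext_hom
    intro x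
    simp [thS]
  exact DFunLike.congr_fun h w

variable {S}

theorem piS_surj (hS : closure S = ⊤) : Function.Surjective (piS S) := by
  rw [← MonoidHom.range_eq_top, eq_top_iff, ← hS, closure_le]
  intro x hx
  exact ⟨FreeGroup.of ⟨x, hx⟩, by simp [piS]⟩

/-- Every element of the free group is represented by a word; the reversed word represents
`(thS w)⁻¹`. -/
theorem word_rep (w : FreeGroup S) : ∃ u : List G, (∀ x ∈ u, x ∈ S ∨ x⁻¹ ∈ S) ∧
    u.prod = piS S w ∧ u.reverse.prod = (piS S (thS S w))⁻¹ := by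
  induction w using FreeGroup.induction_on with
  | C1 => exact ⟨[], by simp, by simp, by simp⟩
  | of x =>
    exact ⟨[x.1], by simp, by simp [piS], by simp [piS, thS]⟩
  | inv_of x _ =>
    exact ⟨[x.1⁻¹], by simp, by simp [piS], by simp [piS, thS]⟩
  | mul x y hx hy =>
    obtain ⟨u, h1, h2, h3⟩ := hx
    obtain ⟨v, k1, k2, k3⟩ := hy
    refine ⟨u ++ v, ?_, ?_, ?_⟩
    · intro z hz
      rcases List.mem_append.1 hz with h | h
      · exact h1 z h
      · exact k1 z h
    · rw [List.prod_append, h2, k2, map_mul]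
    · rw [List.reverse_append, List.prod_append, h3, k3, map_mul, map_mul, mul_inv_rev]

end

theorem sym {G : Type} [Group G] (S : Set G) (hS : closure S = ⊤) :
    ∃ (L : Subgroup G) (_ : L.Normal), (∀ g ∈ L, ∃ w, IsPalWord S w ∧ w.prod = g) ∧
      ∃ σ : G ⧸ L ≃* G ⧸ L, ∀ x ∈ S, σ (QuotientGroup.mk' L x) = (QuotientGroup.mk' L x)⁻¹ := by
  have hπ := piS_surj hS
  have hθ : Function.Surjective (thS S) := fun w => ⟨thS S w, thS_thS S w⟩
  let ρ : FreeGroup S →* G := (piS S).comp (thS S)
  have hρ : Function.Surjective ρ := hπ.comp hθ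
  let L : Subgroup G := (piS S).ker.map ρ
  have hL : L.Normal := Subgroup.Normal.map inferInstance ρ hρ
  refine ⟨L, hL, ?_, ?_⟩
  · rintro g ⟨w, hw, rfl⟩
    obtain ⟨u, h1, h2, h3⟩ := word_rep w⁻¹
    refine ⟨u ++ u.reverse, ⟨?_, by simp⟩, ?_⟩
    · intro z hz
      rcases List.mem_append.1 hz with h | h
      · exact h1 z h
      · exact h1 z (List.mem_reverse.1 h)
    · have hw' : piS S w = 1 := hw
      rw [List.prod_append, h2, h3, map_inv, map_inv, map_inv, hw', inv_one, one_mul, inv_inv]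
      rfl
  · let m : G →* G ⧸ L := QuotientGroup.mk' L
    have hker : (piS S).ker ≤ (m.comp ρ).ker := by
      intro w hw
      rw [MonoidHom.mem_ker]
      exact (QuotientGroup.eq_one_iff _).2 ⟨w, hw, rfl⟩
    let σ₀ : G →* G ⧸ L := (piS S).liftOfSurjective hπ ⟨m.comp ρ, hker⟩
    have hσ₀ : ∀ w, σ₀ (piS S w) = m (piS S (thS S w)) := by
      intro w
      exact MonoidHom.liftOfRightInverse_comp_apply (piS S) _ _ ⟨m.comp ρ, hker⟩ w
    have hσL : ∀ g ∈ L, σ₀ g = 1 := by
      rintro g ⟨w, hw, rfl⟩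
      have hw' : piS S w = 1 := hw
      change σ₀ (piS S (thS S w)) = 1
      rw [hσ₀, thS_thS, hw', map_one]
    let σ : G ⧸ L →* G ⧸ L := QuotientGroup.lift L σ₀ hσL
    have hσ : ∀ w, σ (m (piS S w)) = m (piS S (thS S w)) := fun w => hσ₀ w
    have hσσ : ∀ x, σ (σ x) = x := by
      intro x
      obtain ⟨g, rfl⟩ := QuotientGroup.mk'_surjective L x
      obtain ⟨w, rfl⟩ := hπ g
      change σ (σ (m (piS S w))) = m (piS S w)
      rw [hσ, hσ, thS_thS]
    refine ⟨MulEquiv.mk' ⟨σ, σ, hσσ, hσσ⟩ (fun x y => map_mul σ x y), ?_⟩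
    intro x hx
    have e : x = piS S (FreeGroup.of ⟨x, hx⟩) := by simp [piS]
    change σ (m x) = (m x)⁻¹
    rw [e, hσ]
    simp [thS]

/-- Finiteness of the palindromic width passes from `G ⧸ L` to `G`. -/
theorem sym_pw {G : Type} [Group G] (S : Finset G) (hS : closure (S : Set G) = ⊤)
    (h : ∀ (Q : Type) [Group Q] (m : G →* Q) (T : Finset Q), Function.Surjective m →
      (T : Set Q) = m '' (S : Set G) → (∃ σ : Q ≃* Q, ∀ x ∈ T, σ x = x⁻¹) →
      ∃ N : ℕ, ∀ g : Q, PL (T : Set Q) N g) :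
    ∃ N : ℕ, ∀ g : G, PL (S : Set G) N g := by
  classical
  obtain ⟨L, hL, h1, σ, hσ⟩ := sym (S : Set G) hS
  obtain ⟨N, hN⟩ := h (G ⧸ L) (QuotientGroup.mk' L) (S.image (QuotientGroup.mk' L))
    (QuotientGroup.mk'_surjective L) (by rw [Finset.coe_image]) ⟨σ, by
      intro x hx
      obtain ⟨y, hy, rfl⟩ := Finset.mem_image.1 hx
      exact hσ y hy⟩
  refine ⟨N + 1, fun g => ?_⟩
  have h2 := hN (QuotientGroup.mk' L g)
  rw [Finset.coe_image] at h2
  obtain ⟨p, hp, hpg⟩ := PL.lift (QuotientGroup.mk' L) h2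
  have h3 : p⁻¹ * g ∈ L := QuotientGroup.eq.1 hpg
  obtain ⟨w, hw, hwg⟩ := h1 _ h3
  have h4 := hp.mul (PL.of_pal hw)
  rwa [hwg, mul_inv_cancel_left] at h4

end Pool.Agent.B0f829.EQ
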