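import Pool.Agent.Work.MP_b0f829_al.EQ.Wr

/-!
# MODULE IvProd (S-M): products of the involutions `iv p`

PROOF. Strong induction on the length (two elements at a time): the product of a list of even length `2m` of elements `iv p` is `pr (Π a_i b_i⁻¹) (Π a_i⁻¹ b_i)` for a list of `m` pairs (`iv_mul_iv`, `pr_mul`);
the product of a list of odd length is `(such a pair) * iv p`, so its `right` component is `-1` and it is not of the form `pr 1 c`.
-/

set_option autoImplicit false

open Subgroup
open scoped commutatorElement

namespace Pool.Agent.B0f829.EQ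

theorem ivProd {G : Type} [Group G] (l : List (W G)) (hl : ∀ x ∈ l, ∃ p, x = iv p) :
    (∃ L : List (G × G), 2 * L.length = l.length ∧
      l.prod = pr (L.map (fun q => q.1 * q.2⁻¹)).prod (L.map (fun q => q.1⁻¹ * q.2)).prod) ∨
    ∀ a b : G, l.prod ≠ pr a b := by
  classical
  induction hn : l.length using Nat.strong_induction_on generalizing l with
  | _ n ih =>
    match l, hl, hn with
    | [], _, hn =>
      left
      exact ⟨[], by simpa using hn, by simp [pr_one]⟩
    | [x], hl, hn =>
      right
      intro a b h
      obtain ⟨p, rfl⟩ := hl x (by simp)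
      have := congrArg SemidirectProduct.right h
      simp [iv, pr, sw] at this
    | x :: y :: l, hl, hn =>
      obtain ⟨p, hp⟩ := hl x (by simp)
      obtain ⟨q, hq⟩ := hl y (by simp)
      simp only [List.length_cons] at hn
      rcases ih l.length (by omega) l (fun z hz => hl z (by simp [hz])) rfl with ⟨L, h1, h2⟩ | h
      · left
        refine ⟨(p, q) :: L, by simp; omega, ?_⟩
        simp only [List.prod_cons, List.map_cons, h2]
        rw [← mul_assoc, hp, hq, iv_mul_iv, pr_mul]
      · right
        intro a b hab
        simp only [List.prod_cons] at hab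
        rw [← mul_assoc, hp, hq, iv_mul_iv] at hab
        apply h ((p * q⁻¹)⁻¹ * a) ((p⁻¹ * q)⁻¹ * b)
        rw [← pr_mul, ← pr_inv, ← hab]
        group

end Pool.Agent.B0f829.EQ
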