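import Pool.Agent.Work.MP_b0f829_al.EQ.CommPairs
import Pool.Agent.Work.MP_b0f829_al.EQ.IvProd

/-!
# MODULE ConjToComm (S): conjugate length in `W G` bounds commutator length in `G`

PROOF. Let `l` be the list of `ConjLen`. Every element of `l` is conjugate to some `iv q`, so it is an `iv p` (`conj_iv`, `isConj_iff`). By `ivProd` (the second case is impossible) there is a list `L` of pairs with
`2 * L.length = l.length ≤ N`, `Π a b⁻¹ = 1` and `Π a⁻¹ b = c` (`pr_injective`); apply `commPairs` and monotonicity of `CommLen` in `k`.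
-/

set_option autoImplicit false

open Subgroup
open scoped commutatorElement

namespace Pool.Agent.B0f829.EQ

theorem conjToComm {G : Type} [Group G] (T : Set (W G)) (hT : ∀ t ∈ T, ∃ p, t = iv p) (N : ℕ) (c : G)
    (h : ConjLen T N (pr 1 c)) : CommLen N c := by
  obtain ⟨l, h1, h2, h3⟩ := h
  have hl : ∀ x ∈ l, ∃ p, x = iv p := by
    intro x hx
    obtain ⟨t, ht, htx⟩ := h2 x hx
    obtain ⟨p, rfl⟩ := hT t ht
    obtain ⟨c, hc⟩ := isConj_iff.1 htx
    obtain ⟨q, hq⟩ := conj_iv c p
    exact ⟨q, by rw [← hc, hq]⟩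
  rcases ivProd l hl with ⟨L, h4, h5⟩ | h
  · rw [h3] at h5
    obtain ⟨h6, h7⟩ := pr_injective h5
    obtain ⟨M, h8, h9⟩ := commPairs L
    refine ⟨M, by omega, ?_⟩
    rw [h9, ← h6, ← h7, mul_one]
  · exact absurd h3 (h _ _)

end Pool.Agent.B0f829.EQ
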