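import Pool.Agent.Work.MP_b0f829_al.EQ.Wr
import Pool.Agent.Work.MP_b0f829_al.H86.Crit

/-!
# MODULE GamCon (S-M): the subgroup generated by the involutions `sw`, `iv x`, `iv (x y)` contains `1 × G'`

PROOF. Let `Γ` be the closure, `N = {c | pr 1 c ∈ Γ}` as a subgroup (`comap` of `Γ` under `c ↦ pr 1 c`, or define it by hand).
(1) For every `h : G` there is `g` with `pr g h ∈ Γ`: the set of such `h` is a subgroup (`pr_mul`, `pr_inv`) and contains `x ∈ X`: `sw * iv x = iv 1 * iv x = pr x⁻¹ x`.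
(2) `N` is normal: `pr g h * pr 1 c * (pr g h)⁻¹ = pr 1 (h c h⁻¹)`.
(3) For `x, y ∈ X`: `iv x * sw = pr x x⁻¹`, so `(pr (x y) (x y)⁻¹)⁻¹ * pr x x⁻¹ * pr y y⁻¹ = pr 1 (x y x⁻¹ y⁻¹) ∈ Γ`, i.e. `⁅x, y⁆ ∈ N`.
(4) `comm_le_of_gen` (in `H86/Crit.lean`): `⁅⊤, ⊤⁆ ≤ N`, and `commutator G = ⁅⊤, ⊤⁆` (`commutator_def`).
-/

set_option autoImplicit false

open Subgroup
open scoped commutatorElement

namespace Pool.Agent.B0f829.EQ

theorem gamCon {G : Type} [Group G] (X : Set G) (hX : closure X = ⊤) (c : G) (hc : c ∈ commutator G) :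
    pr 1 c ∈ closure ({sw G} ∪ (iv '' X) ∪ {z | ∃ x ∈ X, ∃ y ∈ X, z = iv (x * y)} : Set (W G)) := by
  obtain ⟨Γ, hΓ⟩ : ∃ Γ : Subgroup (W G), Γ = closure ({sw G} ∪ (iv '' X) ∪
      {z | ∃ x ∈ X, ∃ y ∈ X, z = iv (x * y)} : Set (W G)) := ⟨_, rfl⟩
  rw [← hΓ]
  have hsw : sw G ∈ Γ := by
    rw [hΓ]
    exact subset_closure (Or.inl (Or.inl rfl))
  have hiv : ∀ x ∈ X, iv x ∈ Γ := by
    intro x hx
    rw [hΓ]
    exact subset_closure (Or.inl (Or.inr ⟨x, hx, rfl⟩))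
  have hiv2 : ∀ x ∈ X, ∀ y ∈ X, iv (x * y) ∈ Γ := by
    intro x hx y hy
    rw [hΓ]
    exact subset_closure (Or.inr ⟨x, hx, y, hy, rfl⟩)
  let φ : G →* W G := MonoidHom.mk' (fun c => pr 1 c) (fun a b => by rw [pr_mul, one_mul])
  have hφ : ∀ c, φ c = pr 1 c := fun _ => rfl
  have h1 : ∀ h : G, ∃ g, pr g h ∈ Γ := by
    intro h
    have hh : h ∈ closure X := by rw [hX]; trivial
    induction hh using closure_induction with
    | mem x hx =>
      refine ⟨x⁻¹, ?_⟩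
      have h2 := mul_mem hsw (hiv x hx)
      rw [← iv_one, iv_mul_iv] at h2
      simpa using h2
    | one => exact ⟨1, by rw [pr_one]; exact one_mem _⟩
    | mul x y _ _ hx hy =>
      obtain ⟨g, hg⟩ := hx
      obtain ⟨g', hg'⟩ := hy
      exact ⟨g * g', by rw [← pr_mul]; exact mul_mem hg hg'⟩
    | inv x _ hx =>
      obtain ⟨g, hg⟩ := hx
      exact ⟨g⁻¹, by rw [← pr_inv]; exact inv_mem hg⟩
  haveI hN : (Γ.comap φ).Normal := by
    constructor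
    intro n hn h
    obtain ⟨g, hg⟩ := h1 h
    rw [mem_comap, hφ] at hn ⊢
    have h3 := mul_mem (mul_mem hg hn) (inv_mem hg)
    rw [pr_inv, pr_mul, pr_mul] at h3
    simpa using h3
  have hK : ∀ s ∈ X, ∀ t ∈ X, ⁅s, t⁆ ∈ Γ.comap φ := by
    intro x hx y hy
    rw [mem_comap, hφ]
    have hp : ∀ z, iv z ∈ Γ → pr z z⁻¹ ∈ Γ := by
      intro z hz
      have h4 := mul_mem hz hsw
      rw [iv, mul_assoc, sw_mul_sw, mul_one] at h4
      exact h4
    have h5 := mul_mem (mul_mem (inv_mem (hp _ (hiv2 x hx y hy))) (hp _ (hiv x hx)))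
      (hp _ (hiv y hy))
    rw [pr_inv, pr_mul, pr_mul] at h5
    have e1 : (x * y)⁻¹ * x * y = 1 := by group
    have e2 : ((x * y)⁻¹)⁻¹ * x⁻¹ * y⁻¹ = ⁅x, y⁆ := by
      rw [commutatorElement_def]
      group
    rw [e1, e2] at h5
    exact h5
  have h6 := comm_le_of_gen X hX (Γ.comap φ) hK
  rw [commutator_def] at hc
  have h7 := h6 hc
  rw [mem_comap, hφ] at h7
  exact h7

end Pool.Agent.B0f829.EQ
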