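import Pool.Agent.Work.MP_b0f829_al.EQ.WrDer
import Pool.Agent.Work.MP_b0f829_al.EQ.GamCon
import Pool.Agent.Work.MP_b0f829_al.EQ.ConjToComm

/-!
# MODULE Transfer (M): a group generated by involutions whose conjugate width bounds the commutator width of `G`

PROOF. `Γ` = the subgroup `closure A` of `W G`, `A = {sw} ∪ iv '' X ∪ {iv (x y)}` as in `gamCon`, as a type; `T : Finset Γ` = the preimage of `A` (finite; e.g. `A' : Finset (W G)`, `T = A'.attach.image ..` or
`(A.toFinite ..).preimage` with `Subtype.val_injective`; `closure_closure_coe_preimage` gives `closure T = ⊤`). Involutions: `iv_sq`, `sw_sq` (`sw = iv 1`). Derived length: `Γ` embeds in `W G`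
(`derivedSeries_W`; `map_derivedSeries_le_derivedSeries` for `Γ.subtype`, injective). Last part: for `c ∈ commutator G` the element `⟨pr 1 c, gamCon ..⟩` of `Γ` has `ConjLen T N`;
map the list by `Subtype.val` (`IsConj` is preserved by homomorphisms: `MonoidHom.map_isConj`) to get `ConjLen (A : Set (W G)) N (pr 1 c)` and use `conjToComm`.
-/

set_option autoImplicit false

open Subgroup
open scoped commutatorElement

namespace Pool.Agent.B0f829.EQ

theorem transfer {G : Type} [Group G] (X : Finset G) (hX : closure (X : Set G) = ⊤) :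
    ∃ (Γ : Type) (_ : Group Γ) (T : Finset Γ), closure (T : Set Γ) = ⊤ ∧ (∀ t ∈ T, t ^ 2 = 1) ∧
      (∀ r, derivedSeries G r = ⊥ → derivedSeries Γ (r + 1) = ⊥) ∧
      ∀ N : ℕ, (∀ g : Γ, ConjLen (T : Set Γ) N g) → ∀ c ∈ commutator G, CommLen N c := by
  classical
  let A : Set (W G) := {sw G} ∪ (iv '' (X : Set G)) ∪
    {z | ∃ x ∈ (X : Set G), ∃ y ∈ (X : Set G), z = iv (x * y)}
  have hAf : A.Finite := by
    refine ((Set.finite_singleton _).union (X.finite_toSet.image _)).union ?_
    refine ((X.finite_toSet.prod X.finite_toSet).image (fun q => iv (q.1 * q.2))).subset ?_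
    rintro z ⟨x, hx, y, hy, rfl⟩
    exact ⟨(x, y), ⟨hx, hy⟩, rfl⟩
  have hAiv : ∀ t ∈ A, ∃ p, t = iv p := by
    rintro t ((rfl | ⟨p, _, rfl⟩) | ⟨x, _, y, _, rfl⟩)
    · exact ⟨1, iv_one.symm⟩
    · exact ⟨p, rfl⟩
    · exact ⟨_, rfl⟩
  let Γ : Subgroup (W G) := closure A
  have hB : ((Subtype.val : Γ → W G) ⁻¹' A).Finite := hAf.preimage Subtype.val_injective.injOn
  have hco : ((hB.toFinset : Finset Γ) : Set Γ) = (Subtype.val : Γ → W G) ⁻¹' A :=
    Set.Finite.coe_toFinset hB
  refine ⟨Γ, inferInstance, hB.toFinset, ?_, ?_, ?_, ?_⟩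
  · rw [hco]
    exact closure_closure_coe_preimage
  · intro t ht
    have ht' : (t : W G) ∈ A := by
      have : t ∈ ((hB.toFinset : Finset Γ) : Set Γ) := ht
      rw [hco] at this
      exact this
    obtain ⟨p, hp⟩ := hAiv t.1 ht'
    apply Subtype.ext
    rw [SubmonoidClass.coe_pow, hp, iv_sq]
    rfl
  · intro r hr
    have h := derivedSeries_W r hr
    rw [eq_bot_iff]
    intro x hx
    have hx' : (Γ.subtype x) ∈ derivedSeries (W G) (r + 1) :=
      map_derivedSeries_le_derivedSeries Γ.subtype (r + 1) ⟨x, hx, rfl⟩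
    rw [h, mem_bot] at hx'
    rw [mem_bot]
    exact Subtype.ext hx'
  · intro N hN c hc
    apply conjToComm A hAiv
    obtain ⟨l, h1, h2, h3⟩ := hN ⟨pr 1 c, gamCon _ hX c hc⟩
    refine ⟨l.map Γ.subtype, by simpa using h1, ?_, ?_⟩
    · intro x hx
      obtain ⟨y, hy, rfl⟩ := List.mem_map.1 hx
      obtain ⟨t, ht, hty⟩ := h2 y hy
      rw [hco] at ht
      exact ⟨t.1, ht, Γ.subtype.map_isConj hty⟩
    · rw [← map_list_prod, h3]
      rfl

end Pool.Agent.B0f829.EQ
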