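import Pool.Agent.Work.MP_b0f829_al.EQ.QCnt

/-!
# MODULE QComm (S-M): the counting function on powers of a commutator

PROOF. The word `(a b a⁻¹ b⁻¹)^n` = the `n`-fold repetition of `[(a, true), (b, true), (a, false), (b, false)]` is reduced (chain condition; `FreeGroup.IsReduced`, or `reduce` by induction), so it is
`(⁅of a, of b⁆ ^ n).toWord`; each block contributes `1 + 0 + 1`, the junctions `b⁻¹ a` contribute `0`.
-/

set_option autoImplicit false

open Subgroup
open scoped commutatorElement

namespace Pool.Agent.B0f829.EQ

private theorem flat_succ {α : Type} (w : List (α × Bool)) (n : ℕ) :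
    (List.replicate (n + 1) w).flatten = w ++ (List.replicate n w).flatten := by
  rw [List.replicate_succ, List.flatten_cons]

private theorem red_flat {α : Type} [DecidableEq α] (a b : α) (hab : a ≠ b) (n : ℕ) :
    FreeGroup.IsReduced
      (List.replicate n [(a, true), (b, true), (a, false), (b, false)]).flatten ∧
    cnt a b (List.replicate n [(a, true), (b, true), (a, false), (b, false)]).flatten = 2 * n := by
  induction n with
  | zero =>
    refine ⟨?_, ?_⟩
    · simp
    · simp [cnt]
  | succ n ih =>
    have hw : wt a b (a, true) (b, true) = 1 := by simp [wt]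
    have hw2 : wt a b (b, true) (a, false) = 0 := by simp [wt]
    have hw3 : wt a b (a, false) (b, false) = 1 := by simp [wt]
    have hw4 : wt a b (b, false) (a, true) = 0 := by simp [wt]
    have hba : b ≠ a := hab.symm
    rw [flat_succ]
    cases n with
    | zero =>
      refine ⟨?_, ?_⟩
      · simp [FreeGroup.IsReduced, hab, hba]
      · simp [cnt, hw, hw2, hw3]
    | succ m =>
      rw [flat_succ] at ih ⊢
      obtain ⟨ih1, ih2⟩ := ih
      refine ⟨?_, ?_⟩
      · simp only [List.cons_append, List.nil_append, FreeGroup.isReduced_cons_cons] at ih1 ⊢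
        refine ⟨fun h => absurd h hab, fun h => absurd h hba, fun h => absurd h hab,
          fun h => absurd h hba, ?_⟩
        exact ih1
      · simp only [List.cons_append, List.nil_append] at ih2 ⊢
        rw [cnt, cnt, cnt, cnt, hw, hw2, hw3, hw4, ih2]
        push_cast
        ring

theorem cnt_comm_pow {α : Type} [DecidableEq α] (a b : α) (hab : a ≠ b) (n : ℕ) :
    cnt a b (⁅FreeGroup.of a, FreeGroup.of b⁆ ^ n).toWord = 2 * n := by
  have h1 : ⁅FreeGroup.of a, FreeGroup.of b⁆ =
      FreeGroup.mk [(a, true), (b, true), (a, false), (b, false)] := by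
    rw [commutatorElement_def, FreeGroup.of, FreeGroup.of, FreeGroup.inv_mk, FreeGroup.inv_mk,
      FreeGroup.mul_mk, FreeGroup.mul_mk, FreeGroup.mul_mk]
    rfl
  obtain ⟨h2, h3⟩ := red_flat a b hab n
  rw [h1, FreeGroup.pow_mk, FreeGroup.toWord_mk, h2.reduce_eq, h3]

end Pool.Agent.B0f829.EQ
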