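import Pool.Agent.Work.MP_b0f829_al.EQ.QCnt

/-!
# MODULE QPal (M): the counting function vanishes on palindromes

PROOF. Let `τ : FreeGroup α →* FreeGroup α` be `FreeGroup.lift (fun x => (FreeGroup.of x)⁻¹)` and `ρ g = (τ g)⁻¹`. (1) `ρ` reverses products and fixes `of x` and `(of x)⁻¹`, so for a word `w : List (FreeGroup α)` in
such letters `ρ w.prod = w.reverse.prod`, which is `w.prod` for a palindromic word. (2) `(τ g).toWord = g.toWord.map flip`, `flip (x, e) = (x, !e)`: the right side is reduced (`FreeGroup.IsReduced`/`reduce` and the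
injectivity of `flip`) and represents `τ g` (`FreeGroup.mk`). (3) `(ρ g).toWord = invRev (g.toWord.map flip) = g.toWord.reverse` (`FreeGroup.toWord_inv`, `invRev`). So for a palindrome `p`: `cnt p.toWord = cnt p.toWord.reverse
= - cnt p.toWord`, hence `0`.
-/

set_option autoImplicit false

open Subgroup

namespace Pool.Agent.B0f829.EQ

private theorem step_flip {α : Type} {L₁ L₂ : List (α × Bool)} (h : FreeGroup.Red.Step L₁ L₂) :
    FreeGroup.Red.Step (L₁.map (fun x => (x.1, !x.2))) (L₂.map (fun x => (x.1, !x.2))) := by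
  cases h with
  | @not L₁ L₂ x b =>
    rw [List.map_append, List.map_append, List.map_cons, List.map_cons]
    exact FreeGroup.Red.Step.not

private theorem red_flip {α : Type} {L₁ L₂ : List (α × Bool)} (h : FreeGroup.Red L₁ L₂) :
    FreeGroup.Red (L₁.map (fun x => (x.1, !x.2))) (L₂.map (fun x => (x.1, !x.2))) := by
  unfold FreeGroup.Red at h ⊢
  induction h with
  | refl => exact Relation.ReflTransGen.refl
  | tail _ h2 ih => exact Relation.ReflTransGen.tail ih (step_flip h2)

private theorem isRed_flip {α : Type} {L : List (α × Bool)} (h : FreeGroup.IsReduced L) :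
    FreeGroup.IsReduced (L.map (fun x => (x.1, !x.2))) := by
  induction L with
  | nil => exact FreeGroup.IsReduced.nil
  | cons x L ih =>
    cases L with
    | nil => exact FreeGroup.IsReduced.singleton
    | cons y L =>
      rw [FreeGroup.isReduced_cons_cons] at h
      rw [List.map_cons, List.map_cons, FreeGroup.isReduced_cons_cons]
      refine ⟨fun he => ?_, ih h.2⟩
      show (!x.2) = (!y.2)
      rw [h.1 he]

private theorem reduce_flip {α : Type} [DecidableEq α] (L : List (α × Bool)) :
    FreeGroup.reduce (L.map (fun x => (x.1, !x.2))) =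
      (FreeGroup.reduce L).map (fun x => (x.1, !x.2)) := by
  have h1 := red_flip (FreeGroup.reduce.red (L := L))
  have h2 : FreeGroup.IsReduced ((FreeGroup.reduce L).map (fun x => (x.1, !x.2))) :=
    isRed_flip (FreeGroup.isReduced_iff_reduce_eq.2 FreeGroup.reduce.idem)
  have h3 := FreeGroup.reduce.eq_of_red h1
  rw [h3, h2.reduce_eq]

private theorem rev_eq {α : Type} (L : List (α × Bool)) :
    FreeGroup.invRev (L.map (fun x => (x.1, !x.2))) = L.reverse := by
  unfold FreeGroup.invRev
  rw [List.map_map]
  have h : ((fun g : α × Bool => (g.1, !g.2)) ∘ fun x => (x.1, !x.2)) = id := by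
    funext x
    simp
  rw [h, List.map_id]

private theorem reduce_pal {α : Type} [DecidableEq α] (L : List (α × Bool))
    (hL : L.reverse = L) : (FreeGroup.reduce L).reverse = FreeGroup.reduce L := by
  rw [← rev_eq, ← reduce_flip, ← FreeGroup.reduce_invRev, rev_eq, hL]

theorem cnt_pal {α : Type} [DecidableEq α] (a b : α) (hab : a ≠ b) (w : List (FreeGroup α))
    (hw : IsPalWord (Set.range (FreeGroup.of : α → FreeGroup α)) w) : cnt a b w.prod.toWord = 0 := by
  obtain ⟨hw1, hw2⟩ := hw
  have hf : ∀ g : FreeGroup α, ∃ p : α × Bool, g ∈ w → g = FreeGroup.mk [p] := by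
    intro g
    by_cases hg : g ∈ w
    · rcases hw1 g hg with ⟨x, hx⟩ | ⟨x, hx⟩
      · exact ⟨(x, true), fun _ => hx.symm⟩
      · refine ⟨(x, false), fun _ => ?_⟩
        rw [← inv_inv g, ← hx]
        rfl
    · exact ⟨(a, true), fun h => absurd h hg⟩
  choose f hf using hf
  have hprod : ∀ v : List (FreeGroup α), (∀ g ∈ v, g ∈ w) → v.prod = FreeGroup.mk (v.map f) := by
    intro v
    induction v with
    | nil =>
      intro _
      rfl
    | cons g v ih =>
      intro h
      rw [List.prod_cons, ih fun g' hg' => h g' (List.mem_cons_of_mem _ hg'), List.map_cons]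
      have h1 := hf g (h g List.mem_cons_self)
      conv_lhs => rw [h1]
      rw [FreeGroup.mul_mk]
      rfl
  have h1 := hprod w fun g hg => hg
  have h2 : (w.map f).reverse = w.map f := by
    rw [← List.map_reverse, hw2]
  rw [h1, FreeGroup.toWord_mk]
  have h3 := cnt_reverse a b hab (FreeGroup.reduce (w.map f))
  rw [reduce_pal _ h2] at h3
  omega

end Pool.Agent.B0f829.EQ
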