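import Pool.Agent.Work.MP_b0f829_al.EQ.QM
import Pool.Agent.Work.MP_b0f829_al.EQ.QPal
import Pool.Agent.Work.MP_b0f829_al.EQ.QComm

/-!
# MODULE GInf (S): the palindromic width of a free group with respect to a basis is infinite

PROOF. If `PL (range of) N g` then `|cnt g.toWord| ≤ 3 N` (induction on the list of palindromic words with `cnt_mul`, `cnt_pal`); take `g = ⁅of a, of b⁆ ^ (2 N + 1)`.
-/

set_option autoImplicit false

open Subgroup
open scoped commutatorElement

namespace Pool.Agent.B0f829.EQ

private theorem cnt_bound {α : Type} [DecidableEq α] (a b : α) (hab : a ≠ b)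
    (ps : List (List (FreeGroup α)))
    (hps : ∀ w ∈ ps, IsPalWord (Set.range (FreeGroup.of : α → FreeGroup α)) w) :
    |cnt a b ((ps.map List.prod).prod).toWord| ≤ 3 * ps.length := by
  induction ps with
  | nil =>
    rw [List.map_nil, List.prod_nil, FreeGroup.toWord_one]
    simp [cnt]
  | cons w ps ih =>
    have h1 := ih fun v hv => hps v (List.mem_cons_of_mem _ hv)
    have h2 := cnt_pal a b hab w (hps w List.mem_cons_self)
    have h3 := cnt_mul a b hab w.prod (ps.map List.prod).prod
    rw [h2] at h3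
    rw [List.map_cons, List.prod_cons, List.length_cons]
    rw [abs_le] at h1 h3 ⊢
    push_cast
    constructor <;> linarith [h1.1, h1.2, h3.1, h3.2]

theorem gInf {α : Type} [DecidableEq α] (a b : α) (hab : a ≠ b) (N : ℕ) :
    ∃ g : FreeGroup α, ¬ PL (Set.range (FreeGroup.of : α → FreeGroup α)) N g := by
  refine ⟨⁅FreeGroup.of a, FreeGroup.of b⁆ ^ (2 * N + 1), ?_⟩
  rintro ⟨ps, h1, h2, h3⟩
  have h4 := cnt_bound a b hab ps h2
  rw [h3, cnt_comm_pow a b hab] at h4
  have h5 : ((ps.length : ℕ) : ℤ) ≤ N := by exact_mod_cast h1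
  rw [abs_le] at h4
  have h6 := h4.2
  push_cast at h6
  linarith

end Pool.Agent.B0f829.EQ
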