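import Pool.Agent.Work.MP_b0f829_al.EQ.Wr

/-!
# MODULE CommPairs (S): the two products of a list of pairs

PROOF. Induction on `l`; for `l = (a, b) :: l'` put `P = Π a⁻¹ b`, `R = Π a b⁻¹` over `l'`: `a⁻¹ b P (a b⁻¹ R) = ⁅a⁻¹, b a⁻¹⁆ * ⁅b a⁻¹, P⁆ * (P R)` (`group` after unfolding
`commutatorElement_def`), so two more commutators.
-/

set_option autoImplicit false

open Subgroup
open scoped commutatorElement

namespace Pool.Agent.B0f829.EQ

theorem commPairs {G : Type} [Group G] (l : List (G × G)) :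
    CommLen (2 * l.length) ((l.map (fun q => q.1⁻¹ * q.2)).prod * (l.map (fun q => q.1 * q.2⁻¹)).prod) := by
  induction l with
  | nil => exact ⟨[], by simp, by simp⟩
  | cons q l ih =>
    obtain ⟨L, h1, h2⟩ := ih
    obtain ⟨a, b⟩ := q
    set P := (l.map (fun q => q.1⁻¹ * q.2)).prod with hP
    set R := (l.map (fun q => q.1 * q.2⁻¹)).prod with hR
    refine ⟨(a⁻¹, b * a⁻¹) :: (b * a⁻¹, P) :: L, by simp; omega, ?_⟩
    simp only [List.map_cons, List.prod_cons, h2]
    rw [← hP, ← hR]
    simp only [commutatorElement_def]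
    group

end Pool.Agent.B0f829.EQ
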