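import Pool.Agent.Work.MP_b0f829_al.EQ.Wr

/-!
# MODULE ConjMap (S): conjugate length and homomorphisms

PROOF. Induction on the list (generalizing `k` and the element): an element of the list is a conjugate of some `s ∈ S`; its image is a conjugate of `φ s`, which is `1` (then drop it, `isConj_one_right`/`one_left`)
or in `T` (`MonoidHom.map_isConj`).
-/

set_option autoImplicit false

open Subgroup
open scoped commutatorElement

namespace Pool.Agent.B0f829.EQ

theorem ConjLen.map {G H : Type} [Group G] [Group H] (φ : G →* H) (S : Set G) (T : Set H)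
    (hST : ∀ s ∈ S, φ s = 1 ∨ φ s ∈ T) (k : ℕ) (g : G) (h : ConjLen S k g) : ConjLen T k (φ g) := by
  obtain ⟨l, h1, h2, h3⟩ := h
  induction l generalizing k g with
  | nil =>
    refine ⟨[], by simp, by simp, ?_⟩
    rw [← h3]; simp
  | cons x l ih =>
    obtain ⟨k, rfl⟩ : ∃ m, k = m + 1 := ⟨k - 1, by simp at h1; omega⟩
    obtain ⟨L, h4, h5, h6⟩ := ih k l.prod (by simpa using h1) (fun y hy => h2 y (by simp [hy])) rfl
    obtain ⟨s, hs, hsx⟩ := h2 x (by simp)
    have h7 : IsConj (φ s) (φ x) := φ.map_isConj hsx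
    rw [List.prod_cons] at h3
    rcases hST s hs with h8 | h8
    · rw [h8] at h7
      have h9 : φ x = 1 := by
        obtain ⟨c, hc⟩ := isConj_iff.1 h7
        rw [← hc]; group
      refine ⟨L, by omega, h5, ?_⟩
      rw [h6, ← h3, map_mul, h9, one_mul]
    · refine ⟨φ x :: L, by simp; omega, ?_, ?_⟩
      · intro y hy
        rcases List.mem_cons.1 hy with rfl | hy
        · exact ⟨φ s, h8, h7⟩
        · exact h5 y hy
      · rw [List.prod_cons, h6, ← h3, map_mul]

end Pool.Agent.B0f829.EQ
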