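import Pool.Agent.Work.MP_b0f829_al.EQ.Wr

/-!
# MODULE WrGrow (S): the derived series of the wreath product is large

PROOF. Induction on `n`: for every `g ∈ derivedSeries G n` there is `h` with `pr g h ∈ derivedSeries (W G) (n+1)`. `n = 0`: `⁅pr g 1, sw G⁆ = pr g 1 * (sw * pr g⁻¹ 1 * sw) = pr g 1 * pr 1 g⁻¹ = pr g g⁻¹`.
Step: `K = comap inl (derivedSeries (W G) (n+1))` satisfies `derivedSeries G n ≤ map fst K`, so `derivedSeries G (n+1) ≤ ⁅map fst K, map fst K⁆ = map fst ⁅K, K⁆` and `map inl ⁅K, K⁆ ≤ derivedSeries (W G) (n+2)`.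
-/

set_option autoImplicit false

open Subgroup
open scoped commutatorElement

namespace Pool.Agent.B0f829.EQ

theorem grow_W {G : Type} [Group G] (n : ℕ) (g : G) (hg : g ∈ derivedSeries G n) :
    ∃ h, pr g h ∈ derivedSeries (W G) (n + 1) := by
  induction n generalizing g with
  | zero =>
    refine ⟨g⁻¹, ?_⟩
    have e : pr g g⁻¹ = ⁅pr g 1, sw G⁆ := by
      rw [commutatorElement_def, pr_inv, sw_inv, mul_assoc, mul_assoc, ← mul_assoc (sw G),
        sw_conj_pr, pr_mul, inv_one, mul_one, one_mul]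
    rw [e, derivedSeries_one]
    exact commutator_mem_commutator (mem_top _) (mem_top _)
  | succ n ih =>
    rw [derivedSeries_succ, Subgroup.commutator_def] at hg
    rw [derivedSeries_succ]
    induction hg using closure_induction with
    | mem z hz =>
      obtain ⟨u, hu, v, hv, rfl⟩ := hz
      obtain ⟨a, ha⟩ := ih u hu
      obtain ⟨b, hb⟩ := ih v hv
      refine ⟨⁅a, b⁆, ?_⟩
      have e : pr ⁅u, v⁆ ⁅a, b⁆ = ⁅pr u a, pr v b⁆ := by
        simp only [commutatorElement_def, pr_mul, pr_inv]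
      rw [e]
      exact commutator_mem_commutator ha hb
    | one => exact ⟨1, by rw [pr_one]; exact one_mem _⟩
    | mul u v _ _ hu hv =>
      obtain ⟨a, ha⟩ := hu
      obtain ⟨b, hb⟩ := hv
      exact ⟨a * b, by rw [← pr_mul]; exact mul_mem ha hb⟩
    | inv u _ hu =>
      obtain ⟨a, ha⟩ := hu
      exact ⟨a⁻¹, by rw [← pr_inv]; exact inv_mem ha⟩

theorem derivedSeries_W_ne {G : Type} [Group G] (n : ℕ) (h : derivedSeries G n ≠ ⊥) :
    derivedSeries (W G) (n + 1) ≠ ⊥ := by
  intro h0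
  apply h
  rw [eq_bot_iff]
  intro g hg
  obtain ⟨a, ha⟩ := grow_W n g hg
  rw [h0, mem_bot, ← pr_one] at ha
  rw [mem_bot]
  exact (pr_injective ha).1

end Pool.Agent.B0f829.EQ
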