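import Pool.Agent.Work.MP_b0f829_al.EQ.Wr

/-!
# MODULE WrInv (S): the wreath product is generated by involutions if the group is

PROOF. `T' = {sw} ∪ {pr t 1 : t ∈ T}` (`Finset.image`, `classical`). `(pr t 1)^2 = pr (t^2) 1 = 1`, `sw_sq`. The closure contains `pr g 1` for all `g` (induction on `g ∈ closure T`, or `map_closure` for
`g ↦ pr g 1`), `sw * pr g 1 * sw = pr 1 g`, hence all `pr g h = pr g 1 * pr 1 h` and `pr g h * sw`; use `cases_W`.
-/

set_option autoImplicit false

open Subgroup
open scoped commutatorElement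

namespace Pool.Agent.B0f829.EQ

theorem wrInv {G : Type} [Group G] (T : Finset G) (hT : closure (T : Set G) = ⊤) (h2 : ∀ t ∈ T, t ^ 2 = 1) :
    ∃ T' : Finset (W G), closure (T' : Set (W G)) = ⊤ ∧ ∀ t ∈ T', t ^ 2 = 1 := by
  classical
  let φ : G →* W G := (SemidirectProduct.inl : G × G →* W G).comp (MonoidHom.inl G G)
  have hφ : ∀ g, φ g = pr g 1 := fun g => rfl
  let T' : Finset (W G) := {sw G} ∪ T.image φ
  have hTc : (T' : Set (W G)) = {sw G} ∪ φ '' (T : Set G) := by
    rw [Finset.coe_union, Finset.coe_image, Finset.coe_singleton]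
  refine ⟨T', ?_, ?_⟩
  · have h1 : ∀ g : G, pr g 1 ∈ closure (T' : Set (W G)) := by
      intro g
      have h : φ g ∈ (closure (T : Set G)).map φ := ⟨g, by rw [hT]; trivial, rfl⟩
      rw [MonoidHom.map_closure] at h
      exact closure_mono (by rw [hTc]; exact Set.subset_union_right) h
    have h0 : sw G ∈ closure (T' : Set (W G)) := by
      apply Subgroup.subset_closure
      rw [hTc]
      left; rfl
    have h3 : ∀ g h : G, pr g h ∈ closure (T' : Set (W G)) := by
      intro g h
      have e : pr g h = pr g 1 * (sw G * pr h 1 * sw G) := by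
        rw [sw_conj_pr, pr_mul, mul_one, one_mul]
      rw [e]
      exact mul_mem (h1 g) (mul_mem (mul_mem h0 (h1 h)) h0)
    rw [eq_top_iff]
    intro x _
    rcases cases_W x with ⟨g, h, rfl⟩ | ⟨g, h, rfl⟩
    · exact h3 g h
    · exact mul_mem (h3 g h) h0
  · intro t ht
    have ht' : t ∈ (T' : Set (W G)) := ht
    rw [hTc] at ht'
    rcases ht' with rfl | ⟨s, hs, rfl⟩
    · exact sw_sq
    · rw [← map_pow, h2 s hs, map_one]

end Pool.Agent.B0f829.EQ
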