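import Pool.Agent.Work.MP_b0f829_al.EQ.WrDer
import Pool.Agent.Work.MP_b0f829_al.EQ.WrGrow
import Pool.Agent.Work.MP_b0f829_al.EQ.WrInv

/-!
# MODULE FinH (S): solvable groups generated by involutions of large derived length

PROOF. Induction on `n`: `ℤˣ` (generated by `-1`, commutative, nontrivial: `derivedSeries_zero`, `top ≠ bot`) and then `W H` (`wrInv`, `derivedSeries_W`, `derivedSeries_W_ne`).
`Group.IsSolvable H` is a structure: `hsol.solvable : ∃ n, derivedSeries H n = ⊥`, constructor `⟨⟨n, h⟩⟩` or `⟨n, h⟩`.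
-/

set_option autoImplicit false

open Subgroup
open scoped commutatorElement

namespace Pool.Agent.B0f829.EQ

theorem finH (n : ℕ) : ∃ (H : Type) (_ : Group H), Group.IsSolvable H ∧ derivedSeries H n ≠ ⊥ ∧
    ∃ T : Finset H, closure (T : Set H) = ⊤ ∧ ∀ t ∈ T, t ^ 2 = 1 := by
  classical
  induction n with
  | zero =>
    refine ⟨ℤˣ, inferInstance, inferInstance, ?_, {-1}, ?_, ?_⟩
    · rw [derivedSeries_zero]
      intro h
      have h1 : (-1 : ℤˣ) ∈ (⊤ : Subgroup ℤˣ) := mem_top _
      rw [h, mem_bot] at h1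
      exact absurd h1 (by decide)
    · rw [eq_top_iff]
      intro x _
      rcases Int.units_eq_one_or x with rfl | rfl
      · exact one_mem _
      · exact Subgroup.subset_closure (by simp)
    · intro t ht
      rw [Finset.mem_singleton] at ht
      rw [ht]
      decide
  | succ n ih =>
    obtain ⟨H, hH, hs, hd, T, hT, h2⟩ := ih
    obtain ⟨T', hT', h2'⟩ := wrInv T hT h2
    refine ⟨W H, inferInstance, ?_, derivedSeries_W_ne n hd, T', hT', h2'⟩
    obtain ⟨m, hm⟩ := hs.solvable
    exact ⟨⟨m + 1, derivedSeries_W m hm⟩⟩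

end Pool.Agent.B0f829.EQ
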