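import Pool.Agent.Work.MP_b0f829_al.EQ.Wr
import Pool.Agent.Work.MP_b0f829_al.H86.Layers

/-!
# MODULE GAb (S-M): the abelianisation

PROOF. In the commutative group `Abelianization G` the image of `g` lies in the closure of the image of `Y`, so it is `∏_{y ∈ Y} (image y)^(a y)` (`Subgroup.exists_of_mem_closure_range` with index type `Y`, or
induction over `closure`). Let `p = (Y.toList.map (fun y => y ^ a y)).prod`: a product of `Y.card` palindromic words `List.replicate`; `p⁻¹ * g ∈ commutator G`
(`Abelianization.of` has kernel `commutator G`).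
-/

set_option autoImplicit false

open Subgroup
open scoped commutatorElement

namespace Pool.Agent.B0f829.EQ

theorem gAb {G : Type*} [Group G] (Y : Finset G) (hY : closure (Y : Set G) = ⊤) (g : G) :
    ∃ p, PL (Y : Set G) Y.card p ∧ p⁻¹ * g ∈ commutator G := by
  obtain ⟨p, hp, h⟩ := layer_zero Y hY g
  exact ⟨p, hp, by rwa [derivedSeries_one] at h⟩

end Pool.Agent.B0f829.EQ
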