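import Pool.Agent.Work.MP_b0f829_al.EQ.GPal
import Pool.Agent.Work.MP_b0f829_al.EQ.GAb

/-!
# MODULE GMain (S): palindromic width at most `|Y| + 1`

PROOF. `g = p * (p⁻¹ * g)` with `gAb` and `gPal`; `PL` is monotone in the set (`Y ⊆ X`) and `PL.mul`.
-/

set_option autoImplicit false

open Subgroup
open scoped commutatorElement

namespace Pool.Agent.B0f829.EQ

theorem gMain {G : Type} [Group G] (X : Set G) (Y : Finset G) (hY : closure (Y : Set G) = ⊤) (hYX : (Y : Set G) ⊆ X)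
    (hprod : ∀ y ∈ Y, ∀ y' ∈ Y, y ≠ y' → y * y' ∈ X ∨ y' * y ∈ X) (g : G) : PL X (Y.card + 1) g := by
  obtain ⟨p, hp, h⟩ := gAb Y hY g
  obtain ⟨w, hw1, hw2, hw3⟩ := gPal X (Y : Set G) hY hYX hprod _ h
  have h2 : PL X 1 w.prod := PL.of_pal ⟨hw1, hw2⟩
  have h3 := (hp.subset hYX).mul h2
  rw [hw3, mul_inv_cancel_left] at h3
  exact h3

end Pool.Agent.B0f829.EQ
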