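import Pool.Agent.Work.MP_b0f829_al.EQ.Wr
import Pool.Agent.Work.MP_b0f829_al.H86.Crit

/-!
# MODULE GPal (M): commutators are palindromes over `Y ∪ Y Y`

PROOF. `M = {k.reverse.prod : k a word with letters in X or X⁻¹, k.prod = 1}` is a normal subgroup of `G`: `1`; products `(k₂ ++ k₁).reverse.prod = k₁.reverse.prod * k₂.reverse.prod`; inverses: `((k.map (·⁻¹)).reverse)`
(`List.prod_inv_reverse`); conjugation by `g = u.prod` (`exists_word` in `H86/Pal.lean`): the word `(u.map (·⁻¹)) ++ k ++ u.reverse` has value `1` and reversal `u ++ k.reverse ++ (u.map (·⁻¹)).reverse` of value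
`g * k.reverse.prod * g⁻¹`. For `y, y' ∈ Y`, `y ≠ y'`: if `c = y * y' ∈ X` the word `[c⁻¹, y, y']` shows `y' * y * c⁻¹ = ⁅y', y⁆ ∈ M`; if `y' * y ∈ X` similarly `⁅y, y'⁆ ∈ M`. So `comm_le_of_gen` (`H86/Crit.lean`) gives
`commutator G ≤ M`. Finally `k ++ k.reverse` is a palindromic word with value `k.prod * k.reverse.prod = k.reverse.prod`.
-/

set_option autoImplicit false

open Subgroup
open scoped commutatorElement

namespace Pool.Agent.B0f829.EQ

/-- The reversals of the words with value one. -/
private def revSub {G : Type*} [Group G] (X : Set G) : Subgroup G where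
  carrier := {z | ∃ k : List G, (∀ x ∈ k, x ∈ X ∨ x⁻¹ ∈ X) ∧ k.prod = 1 ∧ k.reverse.prod = z}
  one_mem' := ⟨[], by simp, by simp, by simp⟩
  mul_mem' := by
    rintro a b ⟨k₁, h1, h2, h3⟩ ⟨k₂, h4, h5, h6⟩
    refine ⟨k₂ ++ k₁, ?_, ?_, ?_⟩
    · intro x hx
      rcases List.mem_append.1 hx with h | h
      · exact h4 x h
      · exact h1 x h
    · rw [List.prod_append, h5, h2, mul_one]
    · rw [List.reverse_append, List.prod_append, h3, h6]
  inv_mem' := by
    rintro a ⟨k, h1, h2, h3⟩
    refine ⟨(k.map (·⁻¹)).reverse, ?_, ?_, ?_⟩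
    · intro x hx
      rw [List.mem_reverse, List.mem_map] at hx
      obtain ⟨y, hy, rfl⟩ := hx
      rcases h1 y hy with h | h
      · right
        rw [inv_inv]
        exact h
      · left
        exact h
    · rw [← List.prod_inv_reverse, h2, inv_one]
    · rw [List.reverse_reverse, ← h3, List.prod_inv_reverse, List.map_reverse,
        List.reverse_reverse]

private theorem revSub_normal {G : Type*} [Group G] (X Y : Set G) (hY : closure Y = ⊤)
    (hYX : Y ⊆ X) : (revSub X).Normal := by
  refine ⟨?_⟩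
  rintro z ⟨k, h1, h2, h3⟩ g
  obtain ⟨u, hu1, hu2⟩ := exists_word hY g
  have e1 : (u.map (·⁻¹)).prod * u.reverse.prod = 1 := by
    have h := List.prod_inv_reverse u.reverse
    rw [List.map_reverse, List.reverse_reverse] at h
    rw [← h, inv_mul_cancel]
  have e2 : (u.map (·⁻¹)).reverse.prod = g⁻¹ := by
    rw [← List.prod_inv_reverse, hu2]
  refine ⟨u.map (·⁻¹) ++ k ++ u.reverse, ?_, ?_, ?_⟩
  · intro x hx
    rcases List.mem_append.1 hx with h | h
    · rcases List.mem_append.1 h with h | h
      · obtain ⟨y, hy, rfl⟩ := List.mem_map.1 h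
        rcases hu1 y hy with h' | h'
        · right
          rw [inv_inv]
          exact hYX h'
        · left
          exact hYX h'
      · exact h1 x h
    · rcases hu1 x (List.mem_reverse.1 h) with h' | h'
      · exact Or.inl (hYX h')
      · exact Or.inr (hYX h')
  · rw [List.prod_append, List.prod_append, h2, mul_one, e1]
  · rw [List.reverse_append, List.reverse_append, List.reverse_reverse, List.prod_append,
      List.prod_append, hu2, h3, e2, mul_assoc]

private theorem revSub_comm {G : Type*} [Group G] (X Y : Set G) (hYX : Y ⊆ X) {y y' : G}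
    (hy : y ∈ Y) (hy' : y' ∈ Y) (h : y * y' ∈ X) : ⁅y', y⁆ ∈ revSub X := by
  refine ⟨[(y * y')⁻¹, y, y'], ?_, ?_, ?_⟩
  · intro x hx
    simp only [List.mem_cons, List.not_mem_nil, or_false] at hx
    rcases hx with rfl | rfl | rfl
    · right
      rw [inv_inv]
      exact h
    · exact Or.inl (hYX hy)
    · exact Or.inl (hYX hy')
  · simp
  · simp [commutatorElement_def, mul_assoc]

theorem gPal {G : Type*} [Group G] (X Y : Set G) (hY : closure Y = ⊤) (hYX : Y ⊆ X)
    (hprod : ∀ y ∈ Y, ∀ y' ∈ Y, y ≠ y' → y * y' ∈ X ∨ y' * y ∈ X) (g : G) (hg : g ∈ commutator G) :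
    ∃ w : List G, (∀ x ∈ w, x ∈ X ∨ x⁻¹ ∈ X) ∧ w.reverse = w ∧ w.prod = g := by
  have hn : (revSub X).Normal := revSub_normal X Y hY hYX
  have hc : ⁅(⊤ : Subgroup G), (⊤ : Subgroup G)⁆ ≤ revSub X := by
    refine comm_le_of_gen Y hY (revSub X) ?_
    intro s hs t ht
    by_cases hst : s = t
    · rw [hst, commutatorElement_self]
      exact one_mem _
    rcases hprod s hs t ht hst with h | h
    · have h2 := inv_mem (revSub_comm X Y hYX hs ht h)
      rwa [commutatorElement_inv] at h2
    · exact revSub_comm X Y hYX ht hs h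
  obtain ⟨k, h1, h2, h3⟩ := hc hg
  refine ⟨k ++ k.reverse, ?_, ?_, ?_⟩
  · intro x hx
    rcases List.mem_append.1 hx with h | h
    · exact h1 x h
    · exact h1 x (List.mem_reverse.1 h)
  · rw [List.reverse_append, List.reverse_reverse]
  · rw [List.prod_append, h2, h3, one_mul]

end Pool.Agent.B0f829.EQ
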