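import Pool.Agent.Work.MP_b0f829_al.EQ.Wr

/-!
# MODULE PalInv (S-M): palindromic words in involutions

PROOF. (1) By induction over `List.Palindrome w` (`List.Palindrome.of_reverse_eq`; constructors `nil`, `singleton`, `cons_concat`): the product of a palindromic word in the letters `T` (an involution is its own
inverse, `x⁻¹ ∈ T → x ∈ T`) is `1` or a conjugate of an element of `T`: `x v x = x v x⁻¹`. (2) In a list of `≤ k` such words drop those of value `1` (induction on the list).
-/

set_option autoImplicit false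

open Subgroup
open scoped commutatorElement

namespace Pool.Agent.B0f829.EQ

private theorem pal_conj {G : Type} [Group G] (T : Set G) (h2 : ∀ t ∈ T, t ^ 2 = 1) (w : List G)
    (hw : ∀ x ∈ w, x ∈ T) (hp : w.Palindrome) : w.prod = 1 ∨ ∃ t ∈ T, IsConj t w.prod := by
  induction hp with
  | nil => exact Or.inl rfl
  | singleton x =>
    refine Or.inr ⟨x, hw x (List.mem_singleton.2 rfl), ?_⟩
    rw [List.prod_singleton]
  | cons_concat x hp ih =>
    rename_i l
    have hx : x ∈ T := hw x List.mem_cons_self
    have hxi : x⁻¹ = x := by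
      have h := h2 x hx
      rw [pow_two] at h
      exact inv_eq_of_mul_eq_one_left h
    have e : (x :: (l ++ [x])).prod = x * l.prod * x⁻¹ := by
      rw [List.prod_cons, List.prod_append, List.prod_singleton, hxi, mul_assoc]
    rw [e]
    rcases ih (fun y hy => hw y (List.mem_cons_of_mem _ (List.mem_append_left _ hy))) with h | ⟨t, ht, h⟩
    · left
      rw [h, mul_one, mul_inv_cancel]
    · right
      exact ⟨t, ht, h.trans (isConj_iff.2 ⟨x, rfl⟩)⟩

theorem palInv {G : Type} [Group G] (T : Set G) (h2 : ∀ t ∈ T, t ^ 2 = 1) (k : ℕ) (g : G) (h : PL T k g) :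
    ConjLen T k g := by
  obtain ⟨ps, hlen, hps, hg⟩ := h
  have hT : ∀ x : G, (x ∈ T ∨ x⁻¹ ∈ T) → x ∈ T := by
    rintro x (hx | hx)
    · exact hx
    · have h := h2 _ hx
      rw [pow_two] at h
      have h3 : (x⁻¹)⁻¹ = x⁻¹ := inv_eq_of_mul_eq_one_left h
      rw [inv_inv] at h3
      rw [h3]
      exact hx
  have key : ∀ ps : List (List G), (∀ w ∈ ps, (∀ x ∈ w, x ∈ T ∨ x⁻¹ ∈ T) ∧ w.reverse = w) →
      ∃ l : List G, l.length ≤ ps.length ∧ (∀ x ∈ l, ∃ t ∈ T, IsConj t x) ∧
        l.prod = (ps.map List.prod).prod := by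
    intro ps
    induction ps with
    | nil => exact fun _ => ⟨[], le_rfl, fun x hx => absurd hx List.not_mem_nil, rfl⟩
    | cons w ps ih =>
      intro hps
      obtain ⟨l, hl1, hl2, hl3⟩ := ih (fun w hw => hps w (List.mem_cons_of_mem _ hw))
      obtain ⟨hw1, hw2⟩ := hps w List.mem_cons_self
      rw [List.map_cons, List.prod_cons, ← hl3]
      rcases pal_conj T h2 w (fun x hx => hT x (hw1 x hx)) (List.Palindrome.of_reverse_eq hw2) with
        h | ⟨t, ht, h⟩
      · refine ⟨l, ?_, hl2, ?_⟩
        · rw [List.length_cons]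
          omega
        · rw [h, one_mul]
      · refine ⟨w.prod :: l, ?_, ?_, ?_⟩
        · rw [List.length_cons, List.length_cons]
          omega
        · intro x hx
          rcases List.mem_cons.1 hx with rfl | hx
          · exact ⟨t, ht, h⟩
          · exact hl2 x hx
        · rw [List.prod_cons]
  obtain ⟨l, hl1, hl2, hl3⟩ := key ps hps
  exact ⟨l, hl1.trans hlen, hl2, hl3.trans hg⟩

end Pool.Agent.B0f829.EQ
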