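import Pool.Agent.Work.MP_b0f829_al.EQ.QF

/-!
# MODULE QCnt (S-M): elementary properties of the counting function

PROOF. `cnt_append`: for nonempty `u`, `v`: `cnt (u ++ v) = cnt u + wt (last of u) (head of v) + cnt v`; so `|cnt (u ++ v) - cnt u - cnt v| ≤ 1` (`u` or `v` empty: difference `0`). Induction on `u`.
`cnt_reverse`: `wt y x = - wt x y` (here `a ≠ b` is used), induction with `cnt_append` in its exact form (state it as you like). `cnt_flip`: the map `(x, e) ↦ (x, !e)` does not change `wt`.
-/

set_option autoImplicit false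

open Subgroup

namespace Pool.Agent.B0f829.EQ

private theorem cnt_mid {α : Type} [DecidableEq α] (a b : α) (x : α × Bool) (v : List (α × Bool)) :
    ∀ u : List (α × Bool), cnt a b (u ++ x :: v) = cnt a b (u ++ [x]) + cnt a b (x :: v)
  | [] => by simp [cnt]
  | [y] => by
    show wt a b y x + cnt a b (x :: v) = wt a b y x + cnt a b [x] + cnt a b (x :: v)
    simp [cnt]
  | y :: z :: u => by
    have ih := cnt_mid a b x v (z :: u)
    show wt a b y z + cnt a b (z :: u ++ x :: v) =
      wt a b y z + cnt a b (z :: u ++ [x]) + cnt a b (x :: v)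
    rw [ih]
    ring

private theorem wt_bd {α : Type} [DecidableEq α] (a b : α) (x y : α × Bool) :
    |wt a b x y| ≤ 1 := by
  unfold wt
  split_ifs <;> simp

private theorem wt_anti {α : Type} [DecidableEq α] (a b : α) (hab : a ≠ b) (x y : α × Bool) :
    wt a b y x = - wt a b x y := by
  obtain ⟨x1, x2⟩ := x
  obtain ⟨y1, y2⟩ := y
  unfold wt
  dsimp only
  by_cases h : x2 = y2
  · subst h
    rw [if_pos rfl, if_pos rfl]
    by_cases h1 : x1 = a ∧ y1 = b
    · obtain ⟨rfl, rfl⟩ := h1
      rw [if_neg (fun h2 => hab h2.2), if_pos ⟨rfl, rfl⟩, if_pos ⟨rfl, rfl⟩]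
    · rw [if_neg h1]
      by_cases h2 : x1 = b ∧ y1 = a
      · obtain ⟨rfl, rfl⟩ := h2
        rw [if_pos ⟨rfl, rfl⟩, if_pos ⟨rfl, rfl⟩]
        norm_num
      · rw [if_neg h2, if_neg (fun h3 => h2 ⟨h3.2, h3.1⟩), if_neg (fun h3 => h1 ⟨h3.2, h3.1⟩)]
        norm_num
  · rw [if_neg h, if_neg (fun h2 => h h2.symm)]
    norm_num

theorem cnt_append {α : Type} [DecidableEq α] (a b : α) (u v : List (α × Bool)) :
    |cnt a b (u ++ v) - cnt a b u - cnt a b v| ≤ 1 := by
  cases v with
  | nil => simp [cnt]
  | cons x v =>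
    rcases List.eq_nil_or_concat u with rfl | ⟨u', y, rfl⟩
    · simp [cnt]
    · have e1 : (u'.concat y) ++ x :: v = u' ++ y :: (x :: v) := by simp
      have e2 : u'.concat y = u' ++ [y] := by simp
      rw [e1, e2, cnt_mid a b y (x :: v) u']
      have e3 : cnt a b (y :: x :: v) = wt a b y x + cnt a b (x :: v) := rfl
      rw [e3]
      have e4 : cnt a b (u' ++ [y]) + (wt a b y x + cnt a b (x :: v)) - cnt a b (u' ++ [y]) -
          cnt a b (x :: v) = wt a b y x := by ring
      rw [e4]
      exact wt_bd a b y x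

theorem cnt_reverse {α : Type} [DecidableEq α] (a b : α) (hab : a ≠ b) (u : List (α × Bool)) :
    cnt a b u.reverse = - cnt a b u := by
  induction u with
  | nil => simp [cnt]
  | cons x u ih =>
    cases u with
    | nil => simp [cnt]
    | cons y u =>
      have e1 : (x :: y :: u).reverse = u.reverse ++ y :: [x] := by simp
      have e2 : (y :: u).reverse = u.reverse ++ [y] := by simp
      rw [e1, cnt_mid a b y [x] u.reverse, ← e2, ih]
      show - cnt a b (y :: u) + (wt a b y x + cnt a b [x]) = - (wt a b x y + cnt a b (y :: u))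
      have e3 : cnt a b [x] = 0 := rfl
      rw [wt_anti a b hab x y, e3]
      ring

theorem cnt_flip {α : Type} [DecidableEq α] (a b : α) (u : List (α × Bool)) :
    cnt a b (u.map (fun x => (x.1, !x.2))) = cnt a b u := by
  induction u with
  | nil => rfl
  | cons x u ih =>
    cases u with
    | nil => rfl
    | cons y u =>
      have e1 : cnt a b ((x :: y :: u).map (fun x => (x.1, !x.2))) =
          wt a b (x.1, !x.2) (y.1, !y.2) + cnt a b ((y :: u).map (fun x => (x.1, !x.2))) := rfl
      have e2 : cnt a b (x :: y :: u) = wt a b x y + cnt a b (y :: u) := rfl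
      have e3 : wt a b (x.1, !x.2) (y.1, !y.2) = wt a b x y := by
        unfold wt
        simp only [Bool.not_inj_iff]
      rw [e1, e2, e3, ih]

end Pool.Agent.B0f829.EQ
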