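import Pool.Agent.Work.MP_b0f829_al.H86.Pal

/-!
# Definitions for the counting function on reduced words
-/

set_option autoImplicit false

open Subgroup

namespace Pool.Agent.B0f829.EQ

/-- The weight of two adjacent letters: `1` for `a b` and `a⁻¹ b⁻¹`, `-1` for `b a` and `b⁻¹ a⁻¹`, otherwise `0`. -/
def wt {α : Type} [DecidableEq α] (a b : α) (x y : α × Bool) : ℤ :=
  if x.2 = y.2 then (if x.1 = a ∧ y.1 = b then 1 else if x.1 = b ∧ y.1 = a then -1 else 0) else 0

/-- The sum of the weights of adjacent letters. -/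
def cnt {α : Type} [DecidableEq α] (a b : α) : List (α × Bool) → ℤ
  | [] => 0
  | [_] => 0
  | x :: y :: l => wt a b x y + cnt a b (y :: l)

end Pool.Agent.B0f829.EQ
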