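import Pool.Agent.Work.MP_b0f829_al.EQ.QRed
import Pool.Agent.Work.MP_b0f829_al.EQ.QCnt

/-!
# MODULE QM (S): the counting function is a quasimorphism

PROOF. `toWord_mul_split`; `cnt (invRev c) = - cnt c` (`invRev c = (c.map flip).reverse`, `cnt_reverse`, `cnt_flip`); three applications of `cnt_append`:
`cnt(u' v') ≈ cnt u' + cnt v'`, `cnt(u' c) ≈ cnt u' + cnt c`, `cnt (c⁻¹ v') ≈ - cnt c + cnt v'`, each up to `1`.
-/

set_option autoImplicit false

open Subgroup

namespace Pool.Agent.B0f829.EQ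

theorem cnt_mul {α : Type} [DecidableEq α] (a b : α) (hab : a ≠ b) (g h : FreeGroup α) :
    |cnt a b (g * h).toWord - cnt a b g.toWord - cnt a b h.toWord| ≤ 3 := by
  obtain ⟨u, c, v, h1, h2, h3⟩ := toWord_mul_split g h
  have hinv : cnt a b (FreeGroup.invRev c) = - cnt a b c := by
    rw [FreeGroup.invRev, cnt_reverse a b hab, cnt_flip]
  have e1 := cnt_append a b u v
  have e2 := cnt_append a b u c
  have e3 := cnt_append a b (FreeGroup.invRev c) v
  rw [h1, h2, h3]
  rw [hinv] at e3
  rw [abs_le] at *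
  constructor <;> omega

end Pool.Agent.B0f829.EQ
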