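import Pool.Agent.Work.MP_b0f829_al.H86.Pal

/-!
# MODULE QRed (M): cancellation in a product of two elements of a free group

PROOF. For reduced words `u`, `v` (`FreeGroup.reduce u = u` or `FreeGroup.IsReduced u`) there are `u'`, `c`, `v'` with `u = u' ++ c`, `v = invRev c ++ v'` and `u' ++ v'` reduced: induction on `u.length`; if `u ++ v` is
reduced take `c = []`; otherwise (`IsReduced` is a chain condition) the last letter of `u` is the inverse of the first letter of `v`: remove both and apply the induction hypothesis. For `u = g.toWord`, `v = h.toWord`: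
`(g * h).toWord = u' ++ v'` (`FreeGroup.toWord_mul`, `FreeGroup.mk`, invRev).
-/

set_option autoImplicit false

open Subgroup

namespace Pool.Agent.B0f829.EQ

private theorem red_split {α : Type} [DecidableEq α] (u : List (α × Bool)) :
    ∀ v : List (α × Bool), FreeGroup.IsReduced u → FreeGroup.IsReduced v →
      ∃ u' c v' : List (α × Bool), u = u' ++ c ∧ v = FreeGroup.invRev c ++ v' ∧
        FreeGroup.reduce (u ++ v) = u' ++ v' := by
  induction u using List.reverseRecOn with
  | nil =>
    intro v _ hv
    exact ⟨[], [], v, rfl, rfl, hv.reduce_eq⟩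
  | append_singleton u x ih =>
    intro v hu hv
    cases v with
    | nil =>
      refine ⟨u ++ [x], [], [], by simp, by simp, ?_⟩
      rw [List.append_nil]
      exact hu.reduce_eq
    | cons y v =>
      by_cases h : x.1 = y.1 → x.2 = y.2
      · refine ⟨u ++ [x], [], y :: v, by simp, by simp, ?_⟩
        have h1 : FreeGroup.IsReduced ([x] ++ y :: v) := FreeGroup.isReduced_cons_cons.2 ⟨h, hv⟩
        exact (FreeGroup.IsReduced.append_overlap hu h1 (by simp)).reduce_eq
      · push Not at h
        obtain ⟨h1, h2⟩ := h
        have hu' : FreeGroup.IsReduced u := (List.isChain_append.1 hu).1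
        have hv' : FreeGroup.IsReduced v := by
          have h5 : FreeGroup.IsReduced ([y] ++ v) := hv
          exact (List.isChain_append.1 h5).2.1
        obtain ⟨u', c, v', e1, e2, e3⟩ := ih v hu' hv'
        have hx : y = (x.1, !x.2) := by
          refine Prod.ext h1.symm ?_
          show y.2 = !x.2
          rcases hx2 : x.2 <;> rcases hy2 : y.2 <;> simp_all
        refine ⟨u', c ++ [x], v', by rw [e1, List.append_assoc], ?_, ?_⟩
        · rw [FreeGroup.invRev_append, hx, e2]
          rfl
        · rw [← e3]
          have h3 : FreeGroup.Red.Step (u ++ (x.1, x.2) :: (x.1, !x.2) :: v) (u ++ v) :=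
            FreeGroup.Red.Step.not
          have h4 := FreeGroup.reduce.Step.eq h3
          rw [← h4, hx]
          congr 1
          rw [List.append_assoc]
          rfl

theorem toWord_mul_split {α : Type} [DecidableEq α] (g h : FreeGroup α) :
    ∃ u' c v' : List (α × Bool), g.toWord = u' ++ c ∧ h.toWord = FreeGroup.invRev c ++ v' ∧
      (g * h).toWord = u' ++ v' := by
  rw [FreeGroup.toWord_mul]
  exact red_split _ _ FreeGroup.isReduced_toWord FreeGroup.isReduced_toWord

end Pool.Agent.B0f829.EQ
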