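import Pool.Agent.Work.MP_b0f829_al.EQ.FinH
import Pool.Agent.Work.MP_b0f829_al.EQ.PalInv
import Pool.Agent.Work.MP_b0f829_al.EQ.ConjMap

/-!
# MODULE QtoC (M): Q1 implies finite conjugate width

PROOF. Let `H`, `T_H` be as in `finH 3`, `K = G × H`, `S : Finset K` = `image (·, 1) T ∪ image (1, ·) T_H` (`classical`). `closure S = ⊤` (it contains `(g, 1)` and `(1, h)` for all `g, h`), `K` is solvable (instance or
`solvable_prod`; check the name for `Group.IsSolvable`), `derivedSeries K 3 ≠ ⊥` (else `derivedSeries H 3 = map snd (derivedSeries K 3) = ⊥`, `map_derivedSeries_eq` with `Prod.snd_surjective`).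
`hQ` gives `N` with `PL S N` for all elements, `palInv` gives `ConjLen S N (g, 1)`, `ConjLen.map` for `MonoidHom.fst G H` gives `ConjLen T N g`.
-/

set_option autoImplicit false

open Subgroup
open scoped commutatorElement

namespace Pool.Agent.B0f829.EQ

theorem qtoC (hQ : ∀ (G : Type) [Group G], Group.IsSolvable G → derivedSeries G 3 ≠ ⊥ →
      ∀ S : Finset G, closure (S : Set G) = ⊤ → ∃ N : ℕ, ∀ g : G, PL (S : Set G) N g)
    (G : Type) [Group G] (hsol : Group.IsSolvable G) (T : Finset G) (hT : closure (T : Set G) = ⊤)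
    (h2 : ∀ t ∈ T, t ^ 2 = 1) : ∃ N : ℕ, ∀ g : G, ConjLen (T : Set G) N g := by
  classical
  obtain ⟨H, hH, hHs, hHd, TH, hTH, h2H⟩ := finH 3
  haveI := hsol
  haveI := hHs
  let φ : G →* G × H := MonoidHom.inl G H
  let ψ : H →* G × H := MonoidHom.inr G H
  let S : Finset (G × H) := T.image φ ∪ TH.image ψ
  have hSc : (S : Set (G × H)) = φ '' (T : Set G) ∪ ψ '' (TH : Set H) := by
    rw [Finset.coe_union, Finset.coe_image, Finset.coe_image]
  have hS2 : ∀ t ∈ (S : Set (G × H)), t ^ 2 = 1 := by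
    rw [hSc]
    rintro _ (⟨t, ht, rfl⟩ | ⟨t, ht, rfl⟩)
    · rw [← map_pow, h2 t ht, map_one]
    · rw [← map_pow, h2H t ht, map_one]
  have hS : closure (S : Set (G × H)) = ⊤ := by
    have h1 : ∀ g : G, φ g ∈ closure (S : Set (G × H)) := by
      intro g
      have h : φ g ∈ (closure (T : Set G)).map φ := ⟨g, by rw [hT]; trivial, rfl⟩
      rw [MonoidHom.map_closure] at h
      exact closure_mono (by rw [hSc]; exact Set.subset_union_left) h
    have h3 : ∀ g : H, ψ g ∈ closure (S : Set (G × H)) := by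
      intro g
      have h : ψ g ∈ (closure (TH : Set H)).map ψ := ⟨g, by rw [hTH]; trivial, rfl⟩
      rw [MonoidHom.map_closure] at h
      exact closure_mono (by rw [hSc]; exact Set.subset_union_right) h
    rw [eq_top_iff]
    rintro ⟨g, h⟩ -
    have e : (g, h) = φ g * ψ h := by simp [φ, ψ]
    rw [e]
    exact mul_mem (h1 g) (h3 h)
  have hd : derivedSeries (G × H) 3 ≠ ⊥ := by
    intro h0
    apply hHd
    have hsn : Function.Surjective (MonoidHom.snd G H) := Prod.snd_surjective
    rw [← map_derivedSeries_eq hsn, h0, Subgroup.map_bot]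
  obtain ⟨N, hN⟩ := hQ (G × H) inferInstance hd S hS
  refine ⟨N, fun g => ?_⟩
  have h4 := palInv (S : Set (G × H)) hS2 N (φ g) (hN (φ g))
  refine ConjLen.map (MonoidHom.fst G H) (S : Set (G × H)) (T : Set G) ?_ N (φ g) h4
  rw [hSc]
  rintro _ (⟨t, ht, rfl⟩ | ⟨t, ht, rfl⟩)
  · right
    exact ht
  · left
    rfl

end Pool.Agent.B0f829.EQ
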