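import Pool.Agent.Work.MP_b0f829_al.H86.Pal

/-!
# The wreath product of a group with the cyclic group of order two, and its involutions
-/

set_option autoImplicit false

open Subgroup
open scoped commutatorElement

namespace Pool.Agent.B0f829.EQ

/-- `CommLen k g`: the element `g` is a product of at most `k` commutators. -/
def CommLen {G : Type} [Group G] (k : ℕ) (g : G) : Prop :=
  ∃ l : List (G × G), l.length ≤ k ∧ (l.map (fun q => ⁅q.1, q.2⁆)).prod = g

/-- `ConjLen T k g`: the element `g` is a product of at most `k` conjugates of elements of `T`. -/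
def ConjLen {G : Type} [Group G] (T : Set G) (k : ℕ) (g : G) : Prop :=
  ∃ l : List G, l.length ≤ k ∧ (∀ x ∈ l, ∃ t ∈ T, IsConj t x) ∧ l.prod = g

/-- The action of `ℤˣ` on `G × G` by the swap of the factors. -/
def swapHom (G : Type) [Group G] : ℤˣ →* MulAut (G × G) where
  toFun u := if u = 1 then 1 else (MulEquiv.prodComm : G × G ≃* G × G)
  map_one' := by simp
  map_mul' u v := by
    rcases Int.units_eq_one_or u with rfl | rfl <;> rcases Int.units_eq_one_or v with rfl | rfl
    · simp
    · simp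
    · simp
    · ext x <;> simp

/-- The wreath product of `G` with a group of order two. -/
abbrev W (G : Type) [Group G] : Type := (G × G) ⋊[swapHom G] ℤˣ

/-- The involution of `W G` interchanging the two factors. -/
def sw (G : Type) [Group G] : W G := SemidirectProduct.inr (-1)

/-- The pair `(g, h)` as an element of `W G`. -/
def pr {G : Type} [Group G] (g h : G) : W G := SemidirectProduct.inl (g, h)

/-- The element `(p, p⁻¹) σ` of `W G`. -/
def iv {G : Type} [Group G] (p : G) : W G := pr p p⁻¹ * sw G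

variable {G : Type} [Group G]

theorem swapHom_neg (x : G × G) : swapHom G (-1) x = (x.2, x.1) := by
  have h : (-1 : ℤˣ) ≠ 1 := by decide
  simp [swapHom, h]
  rfl

theorem pr_mul (a b c d : G) : pr a b * pr c d = pr (a * c) (b * d) := by
  simp only [pr, ← map_mul, Prod.mk_mul_mk]

theorem pr_inv (a b : G) : (pr a b)⁻¹ = pr a⁻¹ b⁻¹ := by
  simp only [pr, ← map_inv, Prod.inv_mk]

theorem pr_one : pr (1 : G) 1 = 1 := by
  simp only [pr]; exact map_one _

theorem pr_injective {a b c d : G} (h : pr a b = pr c d) : a = c ∧ b = d := by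
  have := SemidirectProduct.inl_injective h
  simpa using this

theorem sw_mul_sw : sw G * sw G = 1 := by
  simp only [sw, ← map_mul]
  have : (-1 : ℤˣ) * -1 = 1 := by decide
  rw [this, map_one]

theorem sw_inv : (sw G)⁻¹ = sw G := inv_eq_of_mul_eq_one_left sw_mul_sw

theorem sw_mul_pr (a b : G) : sw G * pr a b = pr b a * sw G := by
  apply SemidirectProduct.ext
  · simp [sw, pr, swapHom_neg]
  · simp [sw, pr]

theorem sw_conj_pr (a b : G) : sw G * pr a b * sw G = pr b a := by
  rw [sw_mul_pr, mul_assoc, sw_mul_sw, mul_one]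

theorem iv_one : iv (1 : G) = sw G := by
  simp [iv, pr_one]

theorem iv_mul_iv (a b : G) : iv a * iv b = pr (a * b⁻¹) (a⁻¹ * b) := by
  rw [iv, iv, mul_assoc, ← mul_assoc (sw G), sw_conj_pr, pr_mul]

theorem iv_sq (a : G) : iv a ^ 2 = 1 := by
  rw [pow_two, iv_mul_iv, mul_inv_cancel, inv_mul_cancel, pr_one]

theorem sw_sq : sw G ^ 2 = 1 := by rw [pow_two, sw_mul_sw]

/-- Every element is `pr g h` or `pr g h * sw`. -/
theorem cases_W (x : W G) : (∃ g h, x = pr g h) ∨ ∃ g h, x = pr g h * sw G := by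
  rcases Int.units_eq_one_or x.right with h | h
  · left
    refine ⟨x.left.1, x.left.2, ?_⟩
    apply SemidirectProduct.ext
    · simp [pr]
    · simp [pr, h]
  · right
    refine ⟨x.left.1, x.left.2, ?_⟩
    apply SemidirectProduct.ext
    · simp [pr, sw]
    · simp [pr, sw, h]

theorem pr_conj_iv (g h p : G) : pr g h * iv p * (pr g h)⁻¹ = iv (g * p * h⁻¹) := by
  rw [iv, iv, pr_inv, mul_assoc, mul_assoc, sw_mul_pr, ← mul_assoc, ← mul_assoc, pr_mul, pr_mul]
  simp [mul_assoc]

theorem sw_conj_iv (p : G) : sw G * iv p * (sw G)⁻¹ = iv p⁻¹ := by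
  rw [iv, iv, sw_inv, ← mul_assoc, sw_mul_pr, mul_assoc, mul_assoc, sw_mul_sw, mul_one, inv_inv]

/-- The set of the elements `iv p` is closed under conjugation. -/
theorem conj_iv (x : W G) (p : G) : ∃ q, x * iv p * x⁻¹ = iv q := by
  rcases cases_W x with ⟨g, h, rfl⟩ | ⟨g, h, rfl⟩
  · exact ⟨_, pr_conj_iv g h p⟩
  · refine ⟨g * p⁻¹ * h⁻¹, ?_⟩
    have e : pr g h * sw G * iv p * (pr g h * sw G)⁻¹
        = pr g h * (sw G * iv p * (sw G)⁻¹) * (pr g h)⁻¹ := by group
    rw [e, sw_conj_iv, pr_conj_iv]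

end Pool.Agent.B0f829.EQ
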