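import Pool.Agent.Work.MP_b0f829_al.EQ.Wr

/-!
# MODULE WrDer (S-M): derived length of the wreath product

PROOF. `(W G)' ≤ range inl` (kernel of `SemidirectProduct.rightHom`, whose target is commutative), so by induction `derivedSeries (W G) (n+1) ≤ map inl (derivedSeries (G × G) n)`
(`map_commutator`), and `derivedSeries (G × G) n ≤ (derivedSeries G n).prod (derivedSeries G n)` (`map_derivedSeries_le_derivedSeries` for `fst`, `snd`).
`pr a b = SemidirectProduct.inl (a, b)`.
-/

set_option autoImplicit false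

open Subgroup
open scoped commutatorElement

namespace Pool.Agent.B0f829.EQ

theorem der_W {G : Type} [Group G] (n : ℕ) (x : W G) (hx : x ∈ derivedSeries (W G) (n + 1)) :
    ∃ a ∈ derivedSeries G n, ∃ b ∈ derivedSeries G n, x = pr a b := by
  induction n generalizing x with
  | zero =>
    have h1 : (SemidirectProduct.rightHom : W G →* ℤˣ) x = 1 := by
      have h2 : x ∈ commutator (W G) := by rwa [← derivedSeries_one]
      exact Abelianization.commutator_subset_ker (SemidirectProduct.rightHom : W G →* ℤˣ) h2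
    refine ⟨x.left.1, by rw [derivedSeries_zero]; trivial, x.left.2,
      by rw [derivedSeries_zero]; trivial, ?_⟩
    apply SemidirectProduct.ext
    · simp [pr]
    · simpa [pr] using h1
  | succ n ih =>
    rw [derivedSeries_succ, Subgroup.commutator_def] at hx
    induction hx using closure_induction with
    | mem z hz =>
      obtain ⟨u, hu, v, hv, rfl⟩ := hz
      obtain ⟨a, ha, b, hb, rfl⟩ := ih u hu
      obtain ⟨c, hc, d, hd, rfl⟩ := ih v hv
      refine ⟨⁅a, c⁆, ?_, ⁅b, d⁆, ?_, ?_⟩
      · rw [derivedSeries_succ]; exact commutator_mem_commutator ha hc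
      · rw [derivedSeries_succ]; exact commutator_mem_commutator hb hd
      · simp only [commutatorElement_def, pr_mul, pr_inv]
    | one => exact ⟨1, one_mem _, 1, one_mem _, pr_one.symm⟩
    | mul u v _ _ hu hv =>
      obtain ⟨a, ha, b, hb, rfl⟩ := hu
      obtain ⟨c, hc, d, hd, rfl⟩ := hv
      exact ⟨a * c, mul_mem ha hc, b * d, mul_mem hb hd, by rw [pr_mul]⟩
    | inv u _ hu =>
      obtain ⟨a, ha, b, hb, rfl⟩ := hu
      exact ⟨a⁻¹, inv_mem ha, b⁻¹, inv_mem hb, by rw [pr_inv]⟩

theorem derivedSeries_W {G : Type} [Group G] (n : ℕ) (h : derivedSeries G n = ⊥) :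
    derivedSeries (W G) (n + 1) = ⊥ := by
  rw [eq_bot_iff]
  intro x hx
  obtain ⟨a, ha, b, hb, rfl⟩ := der_W n x hx
  rw [h, mem_bot] at ha hb
  rw [ha, hb, pr_one]
  exact one_mem _

end Pool.Agent.B0f829.EQ
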